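import Mathlib

/-!
# SMITH for Jacobians (MP_950c68_ag): the abstract structure behind blocks G, H, I

General version of `Lib/Sm/G/Sys.lean`: the group `(ZMod 2)^2` is replaced by any finite
`ZMod 2`-space `V1` with a nondegenerate alternating form `e` (= `J[2]` with the Weil pairing).

`G` = absolute Galois group of `K`, `V` = 2-power torsion of `J(Ω)`, `Pl` = places of `K`.
No Galois theory here: the fields of `Sys` are data, `Sys.Ok` collects what blocks C, D, E, F deliver.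

All cochains are plain functions `G → V`, `G → V1`, ...; a local cochain at `v` is a function on `G`
of which only the values on `S.D v` matter.  Unramified at `v` means: value `0` at `S.sg v`
(a 2-finite cocycle on `D v` is determined by its values at `sg v` and `phi v`).
-/

set_option autoImplicit false

namespace Pool.Agent.SmJ

/-- The local symbol in terms of the pairs of values `(c sg, c phi)`. -/
def sym {V1 : Type*} [AddCommGroup V1] [Module (ZMod 2) V1]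
    (e : V1 →ₗ[ZMod 2] V1 →ₗ[ZMod 2] ZMod 2) (ep : ZMod 2) (x y : V1 × V1) : ZMod 2 :=
  e x.1 y.2 + e x.2 y.1 + ep * e x.1 y.1

/-- `(-1)^a`. -/
def sgn (a : ZMod 2) : ℤ := if a = 0 then 1 else -1

/-- The data. `NN` = the subgroups `Gal(Ω/L)`, `L/K` finite Galois of 2-power degree;
`D v` = decomposition group, `phi v` = Frobenius, `sg v` = tame generator, `eps v = (q_v - 1)/2`,
`iota` = the inclusion of the 2-torsion, `e` = the Weil pairing on it,
`good` = the finite places of good reduction, `inf` = the infinite place. -/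
structure Sys (G V V1 Pl : Type*) [Group G] [AddCommGroup V] [DistribMulAction G V]
    [AddCommGroup V1] [Module (ZMod 2) V1] where
  NN : Set (Subgroup G)
  D : Pl → Subgroup G
  phi : Pl → G
  sg : Pl → G
  eps : Pl → ZMod 2
  iota : V1 →+ V
  e : V1 →ₗ[ZMod 2] V1 →ₗ[ZMod 2] ZMod 2
  good : Set Pl
  inf : Pl

section

variable {G V V1 Pl : Type*} [Group G] [AddCommGroup V] [DistribMulAction G V]
  [AddCommGroup V1] [Module (ZMod 2) V1]

/-- The twisted action `s * Q = (-1)^chi(s) s Q`. -/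
def tw (chi : G → ZMod 2) (s : G) (Q : V) : V := sgn (chi s) • (s • Q)

/-- The twisted coboundary of `Q`. -/
def dl (chi : G → ZMod 2) (Q : V) (s : G) : V := tw chi s Q - Q

namespace Sys

variable (S : Sys G V V1 Pl)

/-- 2-finite functions on `G`. -/
def TF {α : Type*} (f : G → α) : Prop := ∃ N ∈ S.NN, ∀ s, ∀ n ∈ N, f (s * n) = f s

/-- 2-finite functions on a subgroup `H` (values outside `H` irrelevant). -/
def TFOn {α : Type*} (H : Subgroup G) (f : G → α) : Prop :=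
  ∃ N ∈ S.NN, ∀ s ∈ H, ∀ n ∈ N, n ∈ H → f (s * n) = f s

/-- 2-finite functions of two variables. -/
def TF2 {α : Type*} (c : G → G → α) : Prop :=
  ∃ N ∈ S.NN, ∀ s t, ∀ n ∈ N, ∀ m ∈ N, c (s * n) (t * m) = c s t

/-- `Hom(G, A)`, 2-finite. -/
def HomG {A : Type*} [AddCommGroup A] (c : G → A) : Prop :=
  S.TF c ∧ ∀ s t, c (s * t) = c s + c t

/-- The pair of values at the place `v`. -/
def loc (v : Pl) (c : G → V1) : V1 × V1 := (c (S.sg v), c (S.phi v))

/-- The pairing of two local homomorphisms at `v`. -/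
def sy (v : Pl) (x y : V1 × V1) : ZMod 2 := sym S.e (S.eps v) x y

/-- 2-finite twisted cocycles on the decomposition group at `v` (any twisted cocycle, no local
condition). -/
structure CocD (chi : G → ZMod 2) (v : Pl) (c : G → V) : Prop where
  tf : S.TFOn (S.D v) c
  coc : ∀ s ∈ S.D v, ∀ t ∈ S.D v, c (s * t) = c s + tw chi s (c t)

/-- `c ∈ Z_v(chi)`: on `D v` the function `c` is a coboundary in `V`. -/
def Zv (chi : G → ZMod 2) (v : Pl) (c : G → V) : Prop := ∃ Q : V, ∀ s ∈ S.D v, c s = dl chi Q s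

/-- Selmer cocycles of level `j` for the twist `chi`: 2-finite cocycles with values in `V[2^j]`
which are coboundaries in `V` on every decomposition group. -/
structure IsSel (chi : G → ZMod 2) (j : ℕ) (Psi : G → V) : Prop where
  tf : S.TF Psi
  coc : ∀ s t, Psi (s * t) = Psi s + tw chi s (Psi t)
  lev : ∀ s, (2 : ℕ) ^ j • Psi s = 0
  loc : ∀ v, S.Zv chi v Psi

/-- The local Kummer group `W_v(chi)` of the twist at `v`, as a set of pairs of values. -/
def Wl (chi : G → ZMod 2) (v : Pl) : Set (V1 × V1) :=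
  {x | ∃ Q : V, (∀ s ∈ S.D v, (2 : ℕ) • dl chi Q s = 0) ∧
    dl chi Q (S.sg v) = S.iota x.1 ∧ dl chi Q (S.phi v) = S.iota x.2}

/-- The 2-Selmer group as homomorphisms `G → V1`. -/
def IsSel1 (chi : G → ZMod 2) (b : G → V1) : Prop :=
  S.HomG b ∧ ∀ v, S.loc v b ∈ S.Wl chi v

/-- Everything blocks C, D, E, F deliver to G, H, I. -/
structure Ok : Prop where
  top_mem : ⊤ ∈ S.NN
  inf_mem : ∀ N ∈ S.NN, ∀ N' ∈ S.NN, N ⊓ N' ∈ S.NN
  normal : ∀ N ∈ S.NN, N.Normal
  two_pow : ∀ N ∈ S.NN, ∃ r : ℕ, N.index = 2 ^ r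
  phi_mem : ∀ v, S.phi v ∈ S.D v
  sg_mem : ∀ v, S.sg v ∈ S.D v
  fin1 : Finite V1
  /-- the form -/
  e_alt : ∀ w, S.e w w = 0
  e_nondeg : ∀ w, (∀ w', S.e w w' = 0) → w = 0
  /-- E1 -/
  iota_inj : Function.Injective S.iota
  iota_range : ∀ Q : V, (2 : ℕ) • Q = 0 → ∃ w, S.iota w = Q
  iota_fix : ∀ (s : G) (w : V1), s • S.iota w = S.iota w
  half : ∀ Q : V, ∃ R, (2 : ℕ) • R = Q
  tors : ∀ Q : V, ∃ j : ℕ, (2 : ℕ) ^ j • Q = 0
  act_fin : ∀ j : ℕ, ∃ N ∈ S.NN, ∀ s ∈ N, ∀ Q : V, (2 : ℕ) ^ j • Q = 0 → s • Q = Q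
  /-- almost all places are unramified in a given finite extension -/
  unr : ∀ N ∈ S.NN, {v | S.sg v ∉ N}.Finite
  /-- E2 -/
  good_fin : S.goodᶜ.Finite
  good_triv : ∀ v ∈ S.good, ∀ Q : V, S.sg v • Q = Q
  inf_not_good : S.inf ∉ S.good
  /-- D2 -/
  homD : ∀ v (c : G → ZMod 2), S.TFOn (S.D v) c →
    (∀ s ∈ S.D v, ∀ t ∈ S.D v, c (s * t) = c s + c t) →
    c (S.sg v) = 0 → c (S.phi v) = 0 → ∀ s ∈ S.D v, c s = 0
  /-- C: the Hasse principle -/
  hasse : ∀ c : G → G → ZMod 2, S.TF2 c →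
    (∀ s t w, c s t + c (s * t) w = c t w + c s (t * w)) →
    (∀ v, ∃ b : G → ZMod 2, S.TFOn (S.D v) b ∧
      ∀ s ∈ S.D v, ∀ t ∈ S.D v, c s t = b s + b t + b (s * t)) →
    ∃ b : G → ZMod 2, S.TF b ∧ ∀ s t, c s t = b s + b t + b (s * t)
  /-- F2: reciprocity -/
  recip : ∀ c d : G → V1, S.HomG c → S.HomG d →
    ∑ᶠ v, S.sy v (S.loc v c) (S.loc v d) = 0
  /-- F3: correction -/
  corr : ∀ w : Pl → V1, {v | w v ≠ 0}.Finite →
    ∃ c : G → V1, S.HomG c ∧ ∀ v, v ≠ S.inf → c (S.sg v) = w v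
  /-- F4: duality -/
  dual : ∀ W : Pl → AddSubgroup (V1 × V1), (∀ v, Nat.card (W v) = Nat.card V1) →
    (∀ v, ∀ x ∈ W v, ∀ y ∈ W v, S.sy v x y = 0) →
    {v | ¬ ∀ x : V1 × V1, x ∈ W v ↔ x.1 = 0}.Finite →
    ∀ xi : Pl → V1 × V1, {v | xi v ∉ W v}.Finite →
    (∀ b : G → V1, S.HomG b → (∀ v, S.loc v b ∈ W v) →
      ∑ᶠ v, S.sy v (xi v) (S.loc v b) = 0) →
    ∃ om : G → V1, S.HomG om ∧ ∀ v, S.loc v om - xi v ∈ W v
  /-- E3: `chi` runs through all quadratic characters `chi_D` -/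
  fin_inv : ∀ chi : G → ZMod 2, S.HomG chi → ∀ v,
    {Q : V | ∀ s ∈ S.D v, dl chi Q s = 0}.Finite
  /-- E4: the Kummer groups are isotropic -/
  isot : ∀ chi : G → ZMod 2, S.HomG chi → ∀ v, ∀ x ∈ S.Wl chi v, ∀ y ∈ S.Wl chi v,
    S.sy v x y = 0

end Sys

end

end Pool.Agent.SmJ
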