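import Pool.Agent.Lib.Sm.JDefs

/-!
Project SMITH for Jacobians over `F_q(t)` (MP_950c68_ag), block J: definitions.

The same as `Lib/Sm/JDefs.lean`, with `V1 = (ZMod 2)^2` replaced by any finite `ZMod 2`-space `V`
with a nondegenerate alternating form (`V = J[2]`, all 2-torsion rational).

`TwData k V`: the form `e`, the bad primes `ell μ`, a non-square `u`, the linear maps `T μ`, `Tc` of
`V`; `T μ` is self-adjoint for `e`, and the `T μ` generate the algebra of all endomorphisms of `V`.
For a monic squarefree `D` prime to the `ell μ` the elements of `Code d D` are the triples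
`c = (g_c, (g_μ), (x_P)_{P ∣ D})`, which code the homomorphism
`chi_u ⊗ g_c + ∑ chi_(ell μ) ⊗ g_μ + ∑ chi_P ⊗ x_P`. `Selp d D` is the explicit Selmer group (only the
conditions at the primes dividing `D`), `kap d D w` the image of the 2-torsion point `w`, `Typ` says
that `D` is typical.
-/

set_option autoImplicit false

open Polynomial Pool.Agent.BSDP.R

namespace Pool.Agent.SmJ

open Pool.Agent.Sm (leg Irr PD)

section form

variable {V : Type} [AddCommGroup V] [Module (ZMod 2) V]

/-- The pairing on `V ^ r`. -/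
def pr (e : V →ₗ[ZMod 2] V →ₗ[ZMod 2] ZMod 2) {r : ℕ} (x y : Fin r → V) : ZMod 2 :=
  ∑ i, e (x i) (y i)

/-- Two elements `(x, l)`, `(y, m)` of `V ^ r × V ^ r` are unlinked. -/
def Unl (e : V →ₗ[ZMod 2] V →ₗ[ZMod 2] ZMod 2) {r : ℕ} (y z : (Fin r → V) × (Fin r → V)) : Prop :=
  pr e (y.2 + z.2) (y.1 + z.1) = 0

/-- Some nontrivial combination of the `r` components is constant (equal to the image of a
2-torsion point). -/
def Dep {r : ℕ} {F J : Type} (T : F → V →ₗ[ZMod 2] V) (g : F → Fin r → V)
    (x : J → Fin r → V) : Prop :=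
  ∃ a : Fin r → ZMod 2, a ≠ 0 ∧ ∃ t : V, (∀ j, ∑ i, a i • x j i = t) ∧
    ∀ f, ∑ i, a i • g f i = T f t

end form

/-- The form, the bad primes and the maps of `V` attached to the curve. -/
structure TwData (k : Type) [Field k] (V : Type) [AddCommGroup V] [Module (ZMod 2) V] where
  e : V →ₗ[ZMod 2] V →ₗ[ZMod 2] ZMod 2
  alt : ∀ x, e x x = 0
  nd : ∀ x, (∀ y, e y x = 0) → x = 0
  h : ℕ
  ell : Fin h → k[X]
  u : k
  T : Fin h → V →ₗ[ZMod 2] V
  Tc : V →ₗ[ZMod 2] V
  ell_monic : ∀ i, (ell i).Monic
  ell_irr : ∀ i, Irreducible (ell i)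
  ell_inj : Function.Injective ell
  u_nonsq : ¬ IsSquare u
  symm : ∀ i w w', e w' (T i w) = e w (T i w')
  gen : Algebra.adjoin (ZMod 2) (Set.range T : Set (Module.End (ZMod 2) V)) = ⊤

section codes

variable {k : Type} [Field k] {V : Type} [AddCommGroup V] [Module (ZMod 2) V]

/-- The codes of the homomorphisms ramified only at the `ell μ` and the primes dividing `D`. -/
abbrev Code (d : TwData k V) (D : k[X]) : Type :=
  V × (Fin d.h → V) × (PD D → V)

/-- The condition at the prime `P ∣ D`. -/
noncomputable def cond (d : TwData k V) (D : k[X]) (c : Code d D) (P : PD D) : V :=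
  leg P.1 (C d.u) • (c.1 + d.Tc (c.2.2 P)) +
    ∑ i, leg P.1 (d.ell i) • (c.2.1 i + d.T i (c.2.2 P)) +
    ∑ Q : PD D, leg P.1 Q.1 • (c.2.2 Q + c.2.2 P)

/-- The explicit Selmer group. -/
noncomputable def Selp (d : TwData k V) (D : k[X]) :
    Submodule (ZMod 2) (Code d D) where
  carrier := {c | ∀ P, cond d D c P = 0}
  add_mem' := by
    intro a b ha hb P
    have h : cond d D (a + b) P = cond d D a P + cond d D b P := by
      simp only [cond, Prod.fst_add, Prod.snd_add, Pi.add_apply, map_add]
      have e1 : ∀ (s : ZMod 2) (x y z w : V),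
          s • (x + y + (z + w)) = s • (x + z) + s • (y + w) := by
        intro s x y z w
        rw [← smul_add]
        congr 1
        abel
      simp only [e1, Finset.sum_add_distrib]
      abel
    rw [h, ha P, hb P, add_zero]
  zero_mem' := by
    intro P
    simp [cond]
  smul_mem' := by
    intro s a ha P
    have h : cond d D (s • a) P = s • cond d D a P := by
      simp only [cond, Prod.smul_fst, Prod.smul_snd, Pi.smul_apply, map_smul, smul_add,
        Finset.smul_sum, smul_comm s]
    rw [h, ha P, smul_zero]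

/-- The image of the 2-torsion point `w`. -/
def kap (d : TwData k V) (D : k[X]) (w : V) : Code d D :=
  (d.Tc w, fun i => d.T i w, fun _ => w)

/-- `c 0, ..., c (r-1)` are linearly independent modulo the 2-torsion. -/
def IndepMod (d : TwData k V) (D : k[X]) {r : ℕ} (c : Fin r → Code d D) : Prop :=
  ∀ a : Fin r → ZMod 2, (∃ w : V, ∑ i, a i • c i = kap d D w) → a = 0

/-- `D` is typical. -/
structure Typ (d : TwData k V) (D : k[X]) (R kk C N0 : ℕ) : Prop where
  small : Nat.card (Selp d D) ≤ 2 ^ R
  generic : ∀ (r : ℕ) (c : Fin r → Code d D), (∀ i, c i ∈ Selp d D) → IndepMod d D c →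
    ∀ w : Fin r → V, kk ≤ Nat.card {P : PD D // N0 ≤ P.1.natDegree ∧ 2 ^ C ∣ P.1.natDegree ∧
      ∀ i, (c i).2.2 P = w i}
  distinct : ∀ P Q : PD D, N0 ≤ P.1.natDegree → P.1.natDegree = Q.1.natDegree → P = Q
  few : (Nat.card (PD D) : ℝ) ≤ 2 * Real.log D.natDegree
  odd : ∃ P : PD D, Odd P.1.natDegree

end codes

end Pool.Agent.SmJ
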