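import Pool.Agent.Lib.SmJ.Defs
import Pool.Agent.Lib.Sm.J3

/-!
Project SMITH for Jacobians, block J, module Base: the form on `V ^ r` and the number of solutions of a
system of equations over `F_2` in terms of the dual vectors (`Sm/J3.lean` for a general `V`).
-/

set_option autoImplicit false

namespace Pool.Agent.SmJ.BJ

open Pool.Agent.Sm.BJ (sgz sgz_add sgz_zero sgz_le sum_sgz)

variable {V : Type} [AddCommGroup V] [Module (ZMod 2) V]

theorem add_self_V (x : V) : x + x = 0 := ZModModule.add_self x

theorem eq_of_add_V (a b : V) (h : a + b = 0) : a = b := by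
  have h1 := congrArg (· + b) h
  simp only [add_assoc, add_self_V, add_zero, zero_add] at h1
  exact h1

theorem two_E {r : ℕ} (x : Fin r → V) : x + x = 0 := by
  funext i; exact add_self_V (x i)

theorem two_Z {r : ℕ} (x : (Fin r → V) × (Fin r → V)) : x + x = 0 := by
  ext1 <;> exact two_E _

theorem two_F (x : ZMod 2) : x + x = 0 := by
  revert x; decide

theorem eq_of_add_F (a b : ZMod 2) (h : a + b = 0) : a = b := by
  revert a b; decide

variable {e : V →ₗ[ZMod 2] V →ₗ[ZMod 2] ZMod 2}

theorem e_comm (he : ∀ x, e x x = 0) (x y : V) : e x y = e y x := by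
  have h := he (x + y)
  simp only [map_add, LinearMap.add_apply, he, zero_add, add_zero] at h
  exact (eq_of_add_F _ _ h).symm

theorem e_nd' (he : ∀ x, e x x = 0) (hn : ∀ x, (∀ y, e y x = 0) → x = 0) (x : V)
    (h : ∀ y, e x y = 0) : x = 0 := by
  apply hn
  intro y
  rw [e_comm he]
  exact h y

theorem pr_comm (he : ∀ x, e x x = 0) {r : ℕ} (x y : Fin r → V) : pr e x y = pr e y x := by
  unfold pr
  exact Finset.sum_congr rfl fun i _ => e_comm he _ _

theorem pr_add_left {r : ℕ} (x y z : Fin r → V) : pr e (x + y) z = pr e x z + pr e y z := by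
  unfold pr
  rw [← Finset.sum_add_distrib]
  refine Finset.sum_congr rfl fun i _ => ?_
  rw [Pi.add_apply, map_add, LinearMap.add_apply]

theorem pr_add_right {r : ℕ} (x y z : Fin r → V) : pr e x (y + z) = pr e x y + pr e x z := by
  unfold pr
  rw [← Finset.sum_add_distrib]
  refine Finset.sum_congr rfl fun i _ => ?_
  rw [Pi.add_apply, map_add]

theorem pr_smul_right {r : ℕ} (a : ZMod 2) (x y : Fin r → V) : pr e x (a • y) = a * pr e x y := by
  unfold pr
  rw [Finset.mul_sum]
  refine Finset.sum_congr rfl fun i _ => ?_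
  rw [Pi.smul_apply, map_smul, smul_eq_mul]

theorem pr_smul_left {r : ℕ} (a : ZMod 2) (x y : Fin r → V) : pr e (a • x) y = a * pr e x y := by
  unfold pr
  rw [Finset.mul_sum]
  refine Finset.sum_congr rfl fun i _ => ?_
  rw [Pi.smul_apply, map_smul, LinearMap.smul_apply, smul_eq_mul]

theorem pr_zero_left {r : ℕ} (x : Fin r → V) : pr e 0 x = 0 := by
  unfold pr
  refine Finset.sum_eq_zero fun i _ => ?_
  rw [Pi.zero_apply, map_zero, LinearMap.zero_apply]

theorem pr_zero_right {r : ℕ} (x : Fin r → V) : pr e x 0 = 0 := by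
  unfold pr
  refine Finset.sum_eq_zero fun i _ => ?_
  rw [Pi.zero_apply, map_zero]

theorem pr_single {r : ℕ} (x : Fin r → V) (i : Fin r) (v : V) :
    pr e (Pi.single i v) x = e v (x i) := by
  unfold pr
  rw [Finset.sum_eq_single i]
  · rw [Pi.single_eq_same]
  · intro j _ hj
    rw [Pi.single_eq_of_ne hj, map_zero, LinearMap.zero_apply]
  · intro h'
    exact absurd (Finset.mem_univ i) h'

theorem pr_nondeg (hn : ∀ x, (∀ y, e y x = 0) → x = 0) {r : ℕ} (x : Fin r → V)
    (h : ∀ y, pr e y x = 0) : x = 0 := by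
  funext i
  apply hn
  intro y
  have h1 := h (Pi.single i y)
  rwa [pr_single] at h1

theorem dual_count [Finite V] (hn : ∀ x, (∀ y, e y x = 0) → x = 0) {r : ℕ} {A I : Type}
    [AddCommGroup A] [Finite A] [Fintype I]
    (Φ : A →+ (I → Fin r → V)) (c : I → Fin r → V) :
    Nat.card {ξ : A // Φ ξ = c} * (Nat.card V ^ r) ^ (Fintype.card I) ≤
      Nat.card A * Nat.card {l : I → Fin r → V // ∀ ξ, ∑ i, pr e (l i) (Φ ξ i) = 0} := by
  classical
  have := Fintype.ofFinite A
  have := Fintype.ofFinite V
  have hcardE : Fintype.card (I → Fin r → V) = (Nat.card V ^ r) ^ (Fintype.card I) := by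
    rw [Fintype.card_fun, Fintype.card_fun, Fintype.card_fin, Nat.card_eq_fintype_card]
  -- the double sum
  have key : ∑ l : I → Fin r → V, ∑ ξ : A, sgz (∑ i, pr e (l i) (Φ ξ i + c i)) =
      ∑ ξ : A, ∑ l : I → Fin r → V, sgz (∑ i, pr e (l i) (Φ ξ i + c i)) := Finset.sum_comm
  have hR : ∀ ξ : A, ∑ l : I → Fin r → V, sgz (∑ i, pr e (l i) (Φ ξ i + c i)) =
      if Φ ξ = c then ((Nat.card V ^ r : ℕ) : ℤ) ^ (Fintype.card I) else 0 := by
    intro ξ
    let f : (I → Fin r → V) →+ ZMod 2 :=
      { toFun := fun l => ∑ i, pr e (l i) (Φ ξ i + c i)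
        map_zero' := by
          apply Finset.sum_eq_zero
          intro i _
          exact pr_zero_left _
        map_add' := by
          intro x y
          rw [← Finset.sum_add_distrib]
          exact Finset.sum_congr rfl fun i _ => pr_add_left _ _ _ }
    have h1 := sum_sgz f
    have h2 : (∀ x, f x = 0) ↔ Φ ξ = c := by
      constructor
      · intro h
        funext i
        have h3 : Φ ξ i + c i = 0 := by
          apply pr_nondeg hn
          intro y
          have h4 := h (Pi.single i y)
          change ∑ j, pr e ((Pi.single i y : I → Fin r → V) j) (Φ ξ j + c j) = 0 at h4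
          rw [Finset.sum_eq_single i] at h4
          · simpa using h4
          · intro j _ hj
            rw [Pi.single_eq_of_ne hj]
            exact pr_zero_left _
          · intro h'
            exact absurd (Finset.mem_univ i) h'
        funext j
        exact eq_of_add_V _ _ (congrFun h3 j)
      · intro h l
        change ∑ i, pr e (l i) (Φ ξ i + c i) = 0
        apply Finset.sum_eq_zero
        intro i _
        have h6 : Φ ξ i + c i = 0 := by
          rw [h]
          exact two_E _
        rw [h6]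
        exact pr_zero_right _
    rw [show (∑ l : I → Fin r → V, sgz (∑ i, pr e (l i) (Φ ξ i + c i))) = ∑ l, sgz (f l) from rfl,
      h1]
    by_cases h : Φ ξ = c
    · rw [if_pos (h2.2 h), if_pos h, hcardE]
      push_cast
      rfl
    · rw [if_neg (fun h' => h (h2.1 h')), if_neg h]
  have hL : ∀ l : I → Fin r → V, ∑ ξ : A, sgz (∑ i, pr e (l i) (Φ ξ i + c i)) ≤
      if ∀ ξ, ∑ i, pr e (l i) (Φ ξ i) = 0 then (Fintype.card A : ℤ) else 0 := by
    intro l
    let f : A →+ ZMod 2 :=
      { toFun := fun ξ => ∑ i, pr e (l i) (Φ ξ i)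
        map_zero' := by
          apply Finset.sum_eq_zero
          intro i _
          rw [map_zero]
          exact pr_zero_right _
        map_add' := by
          intro x y
          rw [← Finset.sum_add_distrib]
          refine Finset.sum_congr rfl fun i _ => ?_
          rw [map_add]
          exact pr_add_right _ _ _ }
    have h1 := sum_sgz f
    have h2 : ∑ ξ : A, sgz (∑ i, pr e (l i) (Φ ξ i + c i)) =
        (∑ ξ : A, sgz (f ξ)) * sgz (∑ i, pr e (l i) (c i)) := by
      rw [Finset.sum_mul]
      refine Finset.sum_congr rfl fun ξ _ => ?_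
      rw [← sgz_add]
      congr 1
      change _ = ∑ i, pr e (l i) (Φ ξ i) + _
      rw [← Finset.sum_add_distrib]
      exact Finset.sum_congr rfl fun i _ => pr_add_right _ _ _
    rw [h2, h1]
    by_cases h : ∀ x, f x = 0
    · have h' : ∀ ξ, ∑ i, pr e (l i) (Φ ξ i) = 0 := h
      rw [if_pos h, if_pos h']
      calc (Fintype.card A : ℤ) * sgz (∑ i, pr e (l i) (c i)) ≤ (Fintype.card A : ℤ) * 1 :=
            mul_le_mul_of_nonneg_left (sgz_le _) (by positivity)
        _ = Fintype.card A := mul_one _
    · have h' : ¬ ∀ ξ, ∑ i, pr e (l i) (Φ ξ i) = 0 := h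
      rw [if_neg h, if_neg h', zero_mul]
  have h1 : ∑ ξ : A, (if Φ ξ = c then ((Nat.card V ^ r : ℕ) : ℤ) ^ (Fintype.card I) else 0) ≤
      ∑ l : I → Fin r → V,
        (if ∀ ξ, ∑ i, pr e (l i) (Φ ξ i) = 0 then (Fintype.card A : ℤ) else 0) := by
    rw [← Finset.sum_congr rfl fun ξ _ => hR ξ, ← key]
    exact Finset.sum_le_sum fun l _ => hL l
  rw [← Finset.sum_filter, ← Finset.sum_filter, Finset.sum_const, Finset.sum_const,
    nsmul_eq_mul, nsmul_eq_mul] at h1
  rw [Nat.card_eq_fintype_card (α := {ξ : A // Φ ξ = c}), Nat.card_eq_fintype_card (α := A),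
    Nat.card_eq_fintype_card (α := {l : I → Fin r → V // ∀ ξ, ∑ i, pr e (l i) (Φ ξ i) = 0}),
    Fintype.card_subtype, Fintype.card_subtype, mul_comm (Fintype.card A)]
  exact_mod_cast h1

end Pool.Agent.SmJ.BJ
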