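import Pool.Agent.Lib.SmJ.Fam
import Pool.Agent.Lib.Sm.J9

/-!
Project SMITH for Jacobians, block J, module GridBad: the proportion of bad families in a grid
(`Sm/J9.lean` for a general `V`).
-/

set_option autoImplicit false

open Polynomial Pool.Agent.BSDP.R

namespace Pool.Agent.SmJ.BJ

open Pool.Agent.Sm (leg Irr PD)
open Pool.Agent.Sm.BJ (Pat pat Grid NearU card_mono card_proj card_or card_ex card_markov)

/-- the saving beats the loss -/
theorem decay (E : ℝ) (hE2 : 2 ≤ E) (kk h C : ℕ) {η : ℝ} (hη : 0 < η) : ∃ K : ℕ, ∀ s n : ℕ,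
    K * (1 + s) ≤ n →
    2 * E ^ (1 + s + h) * (C * ((n : ℝ) + 1) ^ kk * (E - 1) ^ n) ≤ η * E ^ n := by
  set θ : ℝ := √((E - 1) / E) with hθ
  have hE0 : 0 < E := by linarith
  have hr0 : 0 < (E - 1) / E := div_pos (by linarith) hE0
  have hr1 : (E - 1) / E < 1 := by
    rw [div_lt_one hE0]
    linarith
  have hθ0 : 0 < θ := Real.sqrt_pos.2 hr0
  have hθ1 : θ < 1 := by
    rw [hθ, Real.sqrt_lt' (by norm_num)]
    linarith
  have hθ2 : θ * θ = (E - 1) / E := Real.mul_self_sqrt hr0.le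
  -- polynomial against exponential
  have hlim := tendsto_pow_const_mul_const_pow_of_lt_one (k := kk) (r := θ) hθ0.le hθ1
  have hη' : 0 < η * θ / (2 * (C + 1)) := by positivity
  obtain ⟨N1, hN1⟩ := Filter.eventually_atTop.1 (hlim.eventually (gt_mem_nhds hη'))
  set A : ℝ := E ^ (1 + h) with hA
  have hA1 : 1 ≤ A := one_le_pow₀ (by linarith)
  obtain ⟨K1, hK1⟩ := exists_pow_lt_of_lt_one (y := θ) (x := 1 / A) (by positivity) hθ1
  have hK1' : A * θ ^ K1 ≤ 1 := by
    have := (lt_div_iff₀' (by linarith : 0 < A)).1 hK1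
    exact this.le
  refine ⟨max N1 K1, ?_⟩
  intro s n hn
  have hnN : N1 ≤ n := by
    calc N1 ≤ max N1 K1 * 1 := by rw [mul_one]; exact le_max_left _ _
      _ ≤ max N1 K1 * (1 + s) := Nat.mul_le_mul_left _ (by omega)
      _ ≤ n := hn
  have hnK : K1 * (1 + s) ≤ n := (Nat.mul_le_mul_right _ (le_max_right _ _)).trans hn
  have h1 : E ^ (1 + s + h) * θ ^ n ≤ 1 := by
    have e1 : E ^ (1 + s + h) ≤ A ^ (1 + s) := by
      have e0 : A ^ (1 + s) = E ^ ((1 + h) * (1 + s)) := by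
        rw [hA]
        exact (pow_mul _ _ _).symm
      rw [e0]
      apply pow_le_pow_right₀ (by linarith)
      nlinarith
    have e2 : θ ^ n ≤ (θ ^ K1) ^ (1 + s) := by
      rw [← pow_mul]
      exact pow_le_pow_of_le_one hθ0.le hθ1.le hnK
    calc E ^ (1 + s + h) * θ ^ n ≤ A ^ (1 + s) * (θ ^ K1) ^ (1 + s) :=
          mul_le_mul e1 e2 (by positivity) (by positivity)
      _ = (A * θ ^ K1) ^ (1 + s) := by rw [mul_pow]
      _ ≤ 1 := pow_le_one₀ (by positivity) hK1'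
  have h2 : ((n : ℝ) + 1) ^ kk * θ ^ n ≤ η / (2 * (C + 1)) := by
    have h3 := hN1 (n + 1) (by omega)
    push_cast at h3
    rw [pow_succ, ← mul_assoc] at h3
    have h4 : ((n : ℝ) + 1) ^ kk * θ ^ n * θ ≤ η / (2 * (C + 1)) * θ := by
      refine h3.le.trans (le_of_eq ?_)
      ring
    exact le_of_mul_le_mul_right h4 hθ0
  have h5 : (E - 1) ^ n = E ^ n * (θ ^ n * θ ^ n) := by
    rw [← mul_pow, hθ2, ← mul_pow]
    congr 1
    field_simp
  rw [h5]
  have hC : (C : ℝ) / (C + 1) ≤ 1 := by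
    rw [div_le_one (by positivity)]
    linarith
  calc 2 * E ^ (1 + s + h) * (C * ((n : ℝ) + 1) ^ kk * (E ^ n * (θ ^ n * θ ^ n)))
      = 2 * C * (E ^ (1 + s + h) * θ ^ n) * (((n : ℝ) + 1) ^ kk * θ ^ n) * E ^ n := by ring
    _ ≤ 2 * C * 1 * (η / (2 * (C + 1))) * E ^ n := by gcongr
    _ = (C / (C + 1)) * (η * E ^ n) := by
        field_simp
    _ ≤ 1 * (η * E ^ n) := mul_le_mul_of_nonneg_right hC (by positivity)
    _ = η * E ^ n := one_mul _

section
variable {k : Type} [Field k] [Finite k]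
variable {V : Type} [AddCommGroup V] [Module (ZMod 2) V] [Finite V] [Nontrivial V]

/-- the proportion of bad families in a grid -/
theorem grid_bad (h2 : (2 : k) ≠ 0) (d : TwData k V) : ∃ C0 : ℕ, ∀ ε : ℝ, 0 < ε → ∃ R : ℕ,
    ∀ kk : ℕ, ∃ K : ℕ, ∀ (S : Type) (_ : Fintype S) (ps : S → k[X]), (∀ s, (ps s).Monic) →
      (∀ s, Irreducible (ps s)) → ∀ (m : ℕ) (dg : Fin m → ℕ),
      Function.Injective dg → (∀ s j, (ps s).natDegree ≠ dg j) → NearU (Sum.elim ps d.ell) dg →
      ∀ W : Finset (Fin m), K * (1 + Nat.card S) ≤ W.card →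
      (Nat.card {p : Grid k dg × CodeF V d.h (S ⊕ Fin m) //
          ∀ a, condF d (Sum.elim ps fun j => (p.1 j).1) p.2 a = 0} ≤
        C0 * Nat.card (Grid k dg)) ∧
      kk ≤ W.card ∧
      (Nat.card {P : Grid k dg // BadT1 d ps (fun j => (P j).1) R ∨
          ∃ r, 1 ≤ r ∧ r ≤ R ∧ BadT2 d ps (fun j => (P j).1) W kk r} : ℝ) ≤
        ε * Nat.card (Grid k dg) := by
  classical
  obtain ⟨C1, hC1⟩ := T1grid h2 d
  refine ⟨C1, ?_⟩
  intro ε hε
  obtain ⟨R, hR⟩ := exists_nat_gt (C1 / (ε / 2))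
  refine ⟨R, ?_⟩
  intro kk
  have hT2 : ∀ r, 1 ≤ r → ∃ K : ℕ, ∀ (S : Type) (_ : Fintype S) (ps : S → k[X]) (m : ℕ)
      (dg : Fin m → ℕ), Function.Injective dg → NearU (Sum.elim ps d.ell) dg →
      ∀ W : Finset (Fin m), K * (1 + Nat.card S) ≤ W.card →
      (Nat.card {P : Grid k dg // BadT2 d ps (fun j => (P j).1) W kk r} : ℝ) ≤
        ε / (2 * (R + 1)) * Nat.card (Grid k dg) := by
    intro r hr
    obtain ⟨C, hC⟩ := T2grid h2 d r kk hr
    have hE2 : (2 : ℝ) ≤ (Nat.card V : ℝ) ^ r := by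
      have e1 : 1 < Nat.card V := Finite.one_lt_card
      have e2 : 2 ≤ Nat.card V ^ r := by
        calc 2 ≤ Nat.card V ^ 1 := by rw [pow_one]; omega
          _ ≤ Nat.card V ^ r := Nat.pow_le_pow_right (by omega) hr
      exact_mod_cast e2
    obtain ⟨K, hK⟩ := decay ((Nat.card V : ℝ) ^ r) hE2 kk d.h C (η := ε / (2 * (R + 1)))
      (by positivity)
    refine ⟨K, ?_⟩
    intro S _ ps m dg hinj hU W hW
    have h3 := hC S inferInstance ps m dg hinj hU W
    have h4 := hK (Nat.card S) W.card hW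
    have h5 := card_proj (A := Grid k dg) (B := Fin r → CodeF V d.h (S ⊕ Fin m))
      (fun P c => (∀ j i, condF d (Sum.elim ps fun j => (P j).1) (c i) (Sum.inr j) = 0) ∧
          (¬ Dep (TF d S) (gF c) (xF c) ∧
            ∃ v : Fin r → V, Nat.card {j : Fin m // j ∈ W ∧ xF c j = v} < kk))
    have h6 : Nat.card {P : Grid k dg // BadT2 d ps (fun j => (P j).1) W kk r} *
        (Nat.card V ^ r) ^ W.card ≤ 2 * Nat.card (Grid k dg) * (Nat.card V ^ r) ^ (1 + Nat.card S + d.h) *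
          (C * (W.card + 1) ^ kk * (Nat.card V ^ r - 1) ^ W.card) :=
      (Nat.mul_le_mul_right _ h5).trans h3
    have h7 : (Nat.card {P : Grid k dg // BadT2 d ps (fun j => (P j).1) W kk r} : ℝ) *
        ((Nat.card V : ℝ) ^ r) ^ W.card ≤ 2 * Nat.card (Grid k dg) *
          ((Nat.card V : ℝ) ^ r) ^ (1 + Nat.card S + d.h) *
          (C * ((W.card : ℝ) + 1) ^ kk * ((Nat.card V : ℝ) ^ r - 1) ^ W.card) := by
      have h8 : ((Nat.card V ^ r - 1 : ℕ) : ℝ) = (Nat.card V : ℝ) ^ r - 1 := by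
        have e1 : 1 ≤ Nat.card V ^ r := Nat.one_le_pow _ _ Nat.card_pos
        rw [Nat.cast_sub e1]
        push_cast
        rfl
      have h9 := (Nat.cast_le (α := ℝ)).2 h6
      simp only [Nat.cast_mul, Nat.cast_pow, h8, Nat.cast_add, Nat.cast_one, Nat.cast_ofNat]
        at h9
      exact h9
    have hpos : 0 < ((Nat.card V : ℝ) ^ r) ^ W.card := pow_pos (by linarith) _
    refine le_of_mul_le_mul_right ?_ hpos
    calc _ ≤ _ := h7
      _ = Nat.card (Grid k dg) * (2 * ((Nat.card V : ℝ) ^ r) ^ (1 + Nat.card S + d.h) *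
          (C * ((W.card : ℝ) + 1) ^ kk * ((Nat.card V : ℝ) ^ r - 1) ^ W.card)) := by ring
      _ ≤ Nat.card (Grid k dg) * (ε / (2 * (R + 1)) * ((Nat.card V : ℝ) ^ r) ^ W.card) :=
          mul_le_mul_of_nonneg_left h4 (Nat.cast_nonneg _)
      _ = _ := by ring
  choose! Kf hKf using hT2
  set f := Module.finrank (ZMod 2) V with hf
  set K := ∑ r ∈ Finset.range (R + 1), Kf r + kk + f + 2 with hK
  refine ⟨K, ?_⟩
  intro S _ ps hps hpi m dg hinj hne hU W hW
  have hS1 : 1 ≤ 1 + Nat.card S := by omega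
  have hWm : W.card ≤ m := by
    have := W.card_le_univ
    rwa [Fintype.card_fin] at this
  have h4S : Nat.card V ^ Nat.card S ≤ 2 ^ m := by
    have e1 : Nat.card V ^ Nat.card S = 2 ^ (f * Nat.card S) := by
      rw [Module.natCard_eq_pow_finrank (K := ZMod 2) (V := V), Nat.card_zmod, ← pow_mul]
    rw [e1]
    apply Nat.pow_le_pow_right (by norm_num)
    have e2 : f * (1 + Nat.card S) ≤ K * (1 + Nat.card S) := Nat.mul_le_mul_right _ (by omega)
    have e3 : f * Nat.card S ≤ f * (1 + Nat.card S) := Nat.mul_le_mul_left _ (by omega)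
    omega
  have hT1 := hC1 S inferInstance ps hps hpi m dg hinj hne hU h4S
  have hkk : kk ≤ W.card := by
    have e2 : kk * 1 ≤ K * (1 + Nat.card S) := Nat.mul_le_mul (by omega) hS1
    omega
  refine ⟨hT1, hkk, ?_⟩
  -- T1
  have hB1 : (Nat.card {P : Grid k dg // BadT1 d ps (fun j => (P j).1) R} : ℝ) ≤
      ε / 2 * Nat.card (Grid k dg) := by
    have h3 := card_markov (A := Grid k dg) (B := CodeF V d.h (S ⊕ Fin m))
      (fun P c => ∀ a, condF d (Sum.elim ps fun j => (P j).1) c a = 0) (2 ^ R)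
    have h4 := h3.trans hT1
    have h5 : (Nat.card {P : Grid k dg // BadT1 d ps (fun j => (P j).1) R} : ℝ) * 2 ^ R ≤
        C1 * Nat.card (Grid k dg) := by
      exact_mod_cast h4
    have h6 : (C1 : ℝ) ≤ ε / 2 * 2 ^ R := by
      rw [div_lt_iff₀ (by positivity)] at hR
      have h7 : (R : ℝ) ≤ 2 ^ R := by
        exact_mod_cast Nat.lt_two_pow_self.le
      nlinarith
    have hpos : (0 : ℝ) < 2 ^ R := by positivity
    refine le_of_mul_le_mul_right ?_ hpos
    calc _ ≤ _ := h5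
      _ ≤ ε / 2 * 2 ^ R * Nat.card (Grid k dg) :=
          mul_le_mul_of_nonneg_right h6 (Nat.cast_nonneg _)
      _ = _ := by ring
  -- T2
  have hB2 : ∀ r ∈ Finset.range (R + 1), (Nat.card {P : Grid k dg //
      1 ≤ r ∧ BadT2 d ps (fun j => (P j).1) W kk r} : ℝ) ≤
        ε / (2 * (R + 1)) * Nat.card (Grid k dg) := by
    intro r hr
    by_cases hr1 : 1 ≤ r
    · have h3 := hKf r hr1 S inferInstance ps m dg hinj hU W (le_trans
        (Nat.mul_le_mul_right _ ?_) hW)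
      · refine le_trans ?_ h3
        have h4 : Nat.card {P : Grid k dg // 1 ≤ r ∧ BadT2 d ps (fun j => (P j).1) W kk r} ≤
            Nat.card {P : Grid k dg // BadT2 d ps (fun j => (P j).1) W kk r} :=
          card_mono fun P (hP : 1 ≤ r ∧ BadT2 d ps (fun j => (P j).1) W kk r) => hP.2
        exact_mod_cast h4
      · have := Finset.single_le_sum (f := Kf) (fun i _ => Nat.zero_le _) hr
        omega
    · have h3 : Nat.card {P : Grid k dg // 1 ≤ r ∧ BadT2 d ps (fun j => (P j).1) W kk r} = 0 := by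
        have : IsEmpty {P : Grid k dg // 1 ≤ r ∧ BadT2 d ps (fun j => (P j).1) W kk r} :=
          ⟨fun P => hr1 P.2.1⟩
        exact Nat.card_of_isEmpty
      rw [h3]
      push_cast
      positivity
  -- union bound
  have hU1 : Nat.card {P : Grid k dg // BadT1 d ps (fun j => (P j).1) R ∨
          ∃ r, 1 ≤ r ∧ r ≤ R ∧ BadT2 d ps (fun j => (P j).1) W kk r} ≤
      Nat.card {P : Grid k dg // BadT1 d ps (fun j => (P j).1) R} +
        ∑ r ∈ Finset.range (R + 1), Nat.card {P : Grid k dg //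
          1 ≤ r ∧ BadT2 d ps (fun j => (P j).1) W kk r} := by
    refine (card_or _ _).trans (Nat.add_le_add_left ?_ _)
    refine le_trans ?_ (card_ex (Finset.range (R + 1)) (fun r (P : Grid k dg) =>
      1 ≤ r ∧ BadT2 d ps (fun j => (P j).1) W kk r))
    apply card_mono
    rintro P ⟨r, hr1, hrR, h⟩
    exact ⟨r, Finset.mem_range.2 (by omega), hr1, h⟩
  have hU2 : (Nat.card {P : Grid k dg // BadT1 d ps (fun j => (P j).1) R ∨
          ∃ r, 1 ≤ r ∧ r ≤ R ∧ BadT2 d ps (fun j => (P j).1) W kk r} : ℝ) ≤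
      Nat.card {P : Grid k dg // BadT1 d ps (fun j => (P j).1) R} +
        ∑ r ∈ Finset.range (R + 1), (Nat.card {P : Grid k dg //
          1 ≤ r ∧ BadT2 d ps (fun j => (P j).1) W kk r} : ℝ) := by
    exact_mod_cast hU1
  refine hU2.trans ((add_le_add hB1 (Finset.sum_le_sum hB2)).trans (le_of_eq ?_))
  rw [Finset.sum_const, Finset.card_range, nsmul_eq_mul]
  push_cast
  field_simp
  ring

end

end Pool.Agent.SmJ.BJ
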