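import Pool.Agent.Lib.SmJ.Base
import Pool.Agent.Lib.Sm.J2

/-!
Project SMITH for Jacobians, block J, module Lin: the two counting lemmas of linear algebra
(`Sm/J1.lean` and `Sm/J2.lean` for a general `V`). Write `N = #V ^ r`, `Z = V ^ r × V ^ r`,
`q (x, l) = pr l x`.

T1: for the family `z.2` (pairwise unlinked) let `W0` be the span of the differences: totally singular,
`#W0 ≤ N`. If `#W0 = N` then all `z.1 s` are in the coset `a + W0` too. If `#W0 < N` then
`#W0 ≤ N / 2`.

T2: as in `Sm/J2.lean`; the stable subspace contains some `a ⊗ V` since the `T f` generate all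
endomorphisms.
-/

set_option autoImplicit false

namespace Pool.Agent.SmJ.BJ

namespace Lin

variable {V : Type} [AddCommGroup V] [Module (ZMod 2) V]

section form

variable (e : V →ₗ[ZMod 2] V →ₗ[ZMod 2] ZMod 2)

/-- The quadratic form. -/
def qq {r : ℕ} (z : (Fin r → V) × (Fin r → V)) : ZMod 2 := pr e z.2 z.1

/-- The polar form. -/
def bb (r : ℕ) : LinearMap.BilinForm (ZMod 2) ((Fin r → V) × (Fin r → V)) :=
  LinearMap.mk₂ (ZMod 2) (fun y z => pr e y.2 z.1 + pr e z.2 y.1)
    (by
      intro a b c
      simp only [Prod.snd_add, Prod.fst_add, pr_add_left, pr_add_right]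
      ring)
    (by
      intro s a c
      simp only [Prod.smul_snd, Prod.smul_fst, pr_smul_left, pr_smul_right, smul_eq_mul]
      ring)
    (by
      intro a b c
      simp only [Prod.snd_add, Prod.fst_add, pr_add_left, pr_add_right]
      ring)
    (by
      intro s a c
      simp only [Prod.smul_snd, Prod.smul_fst, pr_smul_left, pr_smul_right, smul_eq_mul]
      ring)

variable {e}

theorem bb_apply {r : ℕ} (y z : (Fin r → V) × (Fin r → V)) :
    bb e r y z = pr e y.2 z.1 + pr e z.2 y.1 := rfl

theorem bb_comm {r : ℕ} (y z : (Fin r → V) × (Fin r → V)) : bb e r y z = bb e r z y := by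
  rw [bb_apply, bb_apply, add_comm]

theorem qq_add {r : ℕ} (y z : (Fin r → V) × (Fin r → V)) :
    qq e (y + z) = qq e y + qq e z + bb e r y z := by
  simp only [qq, bb_apply, Prod.snd_add, Prod.fst_add, pr_add_left, pr_add_right]
  ring

theorem bb_nondeg (he : ∀ x, e x x = 0) (hn : ∀ x, (∀ y, e y x = 0) → x = 0) (r : ℕ) :
    (bb e r).Nondegenerate := by
  have h : ∀ x, (∀ y, bb e r x y = 0) → x = 0 := by
    intro x hx
    ext1
    · refine pr_nondeg hn _ fun z => ?_
      have := hx (0, z)
      rw [bb_apply, pr_zero_right, zero_add] at this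
      exact this
    · refine pr_nondeg hn _ fun z => ?_
      have := hx (z, 0)
      rw [bb_apply, pr_zero_left, add_zero] at this
      rw [pr_comm he]
      exact this
  refine ⟨h, ?_⟩
  intro y hy
  refine h y fun x => ?_
  rw [bb_comm]
  exact hy x

variable [Finite V]

theorem card_V_pow (r : ℕ) : Nat.card V ^ r = 2 ^ (r * Module.finrank (ZMod 2) V) := by
  rw [Module.natCard_eq_pow_finrank (K := ZMod 2) (V := V), Nat.card_zmod, ← pow_mul,
    mul_comm r]

theorem card_Z_finrank (r : ℕ) :
    Module.finrank (ZMod 2) ((Fin r → V) × (Fin r → V)) =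
      2 * (r * Module.finrank (ZMod 2) V) := by
  rw [Module.finrank_prod, Module.finrank_pi_fintype]
  simp only [Finset.sum_const, Finset.card_univ, Fintype.card_fin, smul_eq_mul]
  ring

/-- A totally singular subspace has dimension at most half. -/
theorem finrank_singular (he : ∀ x, e x x = 0) (hn : ∀ x, (∀ y, e y x = 0) → x = 0) {r : ℕ}
    (W : Submodule (ZMod 2) ((Fin r → V) × (Fin r → V)))
    (h : ∀ z ∈ W, qq e z = 0) :
    Module.finrank (ZMod 2) W ≤ r * Module.finrank (ZMod 2) V := by
  have hb : ∀ y ∈ W, ∀ z ∈ W, bb e r y z = 0 := by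
    intro y hy z hz
    have := qq_add (e := e) y z
    rw [h _ (W.add_mem hy hz), h _ hy, h _ hz, zero_add, zero_add] at this
    exact this.symm
  have hle : W ≤ (bb e r).orthogonal W := by
    intro z hz y hy
    exact hb y hy z hz
  have h1 := LinearMap.BilinForm.finrank_orthogonal (bb_nondeg he hn r) W
  have h2 := Submodule.finrank_mono hle
  rw [h1, card_Z_finrank] at h2
  omega

/-- A totally singular subspace has at most `#V ^ r` elements. -/
theorem card_singular (he : ∀ x, e x x = 0) (hn : ∀ x, (∀ y, e y x = 0) → x = 0) {r : ℕ}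
    (W : Submodule (ZMod 2) ((Fin r → V) × (Fin r → V)))
    (h : ∀ z ∈ W, qq e z = 0) : Nat.card W ≤ Nat.card V ^ r := by
  rw [card_V_pow, Module.natCard_eq_pow_finrank (K := ZMod 2), Nat.card_zmod]
  exact Nat.pow_le_pow_right (by norm_num) (finrank_singular he hn W h)

/-- A totally singular subspace which is not maximal has at most `#V ^ r / 2` elements. -/
theorem card_singular_lt (he : ∀ x, e x x = 0) (hn : ∀ x, (∀ y, e y x = 0) → x = 0) {r : ℕ}
    (W : Submodule (ZMod 2) ((Fin r → V) × (Fin r → V)))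
    (h : ∀ z ∈ W, qq e z = 0) (hlt : Nat.card W ≠ Nat.card V ^ r) :
    Nat.card W ≤ Nat.card V ^ r / 2 := by
  rw [card_V_pow, Module.natCard_eq_pow_finrank (K := ZMod 2), Nat.card_zmod] at hlt ⊢
  have h1 := finrank_singular he hn W h
  have h2 : Module.finrank (ZMod 2) W ≠ r * Module.finrank (ZMod 2) V := by
    intro h3
    exact hlt (by rw [h3])
  have h3 : Module.finrank (ZMod 2) W ≤ r * Module.finrank (ZMod 2) V - 1 := by omega
  have h4 : 2 ^ (r * Module.finrank (ZMod 2) V) =
      2 ^ (r * Module.finrank (ZMod 2) V - 1) * 2 := by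
    rw [← pow_succ]
    congr 1
    omega
  rw [h4, Nat.mul_div_cancel _ (by norm_num)]
  exact Nat.pow_le_pow_right (by norm_num) h3

omit [Finite V] in
/-- The span of pairwise orthogonal singular vectors is totally singular. -/
theorem span_singular {r : ℕ} (s : Set ((Fin r → V) × (Fin r → V)))
    (h1 : ∀ z ∈ s, qq e z = 0) (h2 : ∀ y ∈ s, ∀ z ∈ s, bb e r y z = 0) :
    ∀ z ∈ Submodule.span (ZMod 2) s, qq e z = 0 := by
  have hb : ∀ y ∈ Submodule.span (ZMod 2) s, ∀ z ∈ Submodule.span (ZMod 2) s,
      bb e r y z = 0 := by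
    intro y hy z hz
    induction hy using Submodule.span_induction with
    | mem y hy =>
      induction hz using Submodule.span_induction with
      | mem z hz => exact h2 y hy z hz
      | zero => simp
      | add a b _ _ ha hb => rw [map_add, ha, hb, add_zero]
      | smul c a _ ha => rw [map_smul, ha, smul_zero]
    | zero => simp
    | add a b _ _ ha hb => rw [map_add, LinearMap.add_apply, ha, hb, add_zero]
    | smul c a _ ha => rw [map_smul, LinearMap.smul_apply, ha, smul_zero]
  intro z hz
  induction hz using Submodule.span_induction with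
  | mem z hz => exact h1 z hz
  | zero => exact pr_zero_left _
  | add a b ha' hb' ha hb'' => rw [qq_add, ha, hb'', hb a ha' b hb', add_zero, add_zero]
  | smul c a _ ha =>
    have : qq e (c • a) = c * (c * qq e a) := by
      simp only [qq, Prod.smul_snd, Prod.smul_fst, pr_smul_left, pr_smul_right]
    rw [this, ha, mul_zero, mul_zero]

/-- A vector which is singular and orthogonal to a maximal totally singular subspace is in it. -/
theorem mem_of_max (he : ∀ x, e x x = 0) (hn : ∀ x, (∀ y, e y x = 0) → x = 0) {r : ℕ}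
    (W : Submodule (ZMod 2) ((Fin r → V) × (Fin r → V)))
    (hW : ∀ z ∈ W, qq e z = 0) (hc : Nat.card W = Nat.card V ^ r)
    (x : (Fin r → V) × (Fin r → V)) (hx : qq e x = 0) (hxW : ∀ y ∈ W, bb e r x y = 0) :
    x ∈ W := by
  by_contra hnot
  have h1 : ∀ z ∈ Submodule.span (ZMod 2) (insert x
      (W : Set ((Fin r → V) × (Fin r → V)))), qq e z = 0 := by
    refine span_singular _ ?_ ?_
    · intro z hz
      rcases hz with rfl | hz
      · exact hx
      · exact hW z hz
    · have hbW : ∀ y ∈ W, ∀ z ∈ W, bb e r y z = 0 := by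
        intro y hy z hz
        have := qq_add (e := e) y z
        rw [hW _ (W.add_mem hy hz), hW _ hy, hW _ hz, zero_add, zero_add] at this
        exact this.symm
      intro y hy z hz
      rcases hy with rfl | hy <;> rcases hz with rfl | hz
      · rw [bb_apply]; exact two_F _
      · exact hxW z hz
      · rw [bb_comm]; exact hxW y hy
      · exact hbW y hy z hz
  have h2 := card_singular he hn _ h1
  have h3 : W < Submodule.span (ZMod 2) (insert x (W : Set ((Fin r → V) × (Fin r → V)))) := by
    refine lt_of_le_of_ne ?_ ?_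
    · intro y hy
      exact Submodule.subset_span (Or.inr hy)
    · intro h
      apply hnot
      rw [h]
      exact Submodule.subset_span (Or.inl rfl)
  have h4 : Nat.card W < Nat.card (Submodule.span (ZMod 2)
      (insert x (W : Set ((Fin r → V) × (Fin r → V))))) :=
    Set.Finite.card_lt_card (Set.toFinite _) h3
  omega

end form

section algebra

/-- A non-zero submodule of `V ^ r` which is stable under all `T f` contains some `a ⊗ V`. -/
theorem stable_sub {e : V →ₗ[ZMod 2] V →ₗ[ZMod 2] ZMod 2}
    (hn : ∀ x, (∀ y, e y x = 0) → x = 0) {r : ℕ} {F : Type} (T : F → V →ₗ[ZMod 2] V)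
    (hg : Algebra.adjoin (ZMod 2) (Set.range T : Set (Module.End (ZMod 2) V)) = ⊤)
    (M : Submodule (ZMod 2) (Fin r → V)) (hM : M ≠ ⊥)
    (hst : ∀ f, ∀ x ∈ M, (fun i => T f (x i)) ∈ M) :
    ∃ a : Fin r → ZMod 2, a ≠ 0 ∧ ∀ w : V, (fun i => a i • w) ∈ M := by
  have hall : ∀ φ : Module.End (ZMod 2) V, ∀ x ∈ M, (fun i => φ (x i)) ∈ M := by
    intro φ
    have hφ : φ ∈ Algebra.adjoin (ZMod 2) (Set.range T : Set (Module.End (ZMod 2) V)) := by
      rw [hg]
      exact Algebra.mem_top
    induction hφ using Algebra.adjoin_induction with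
    | mem φ h =>
      obtain ⟨f, rfl⟩ := h
      exact hst f
    | algebraMap s =>
      intro x hx
      have : (fun i => (algebraMap (ZMod 2) (Module.End (ZMod 2) V) s) (x i)) = s • x := by
        funext i
        rw [Module.algebraMap_end_apply]
        rfl
      rw [this]
      exact M.smul_mem s hx
    | add φ ψ _ _ h1 h2 =>
      intro x hx
      exact M.add_mem (h1 x hx) (h2 x hx)
    | mul φ ψ _ _ h1 h2 =>
      intro x hx
      exact h1 _ (h2 x hx)
  obtain ⟨x, hx, hx0⟩ := (Submodule.ne_bot_iff M).1 hM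
  have h1 : ∃ i, x i ≠ 0 := by
    by_contra h
    push Not at h
    exact hx0 (funext h)
  obtain ⟨i0, hi0⟩ := h1
  have h2 : ∃ y, e y (x i0) ≠ 0 := by
    by_contra h
    push Not at h
    exact hi0 (hn _ h)
  obtain ⟨y, hy⟩ := h2
  refine ⟨fun i => e y (x i), fun h => hy (congrFun h i0), fun w => ?_⟩
  exact hall (LinearMap.smulRight (e y) w) x hx

end algebra

section final

variable [Finite V]

/-- functionals are represented by vectors -/
theorem exists_rep {e : V →ₗ[ZMod 2] V →ₗ[ZMod 2] ZMod 2} (he : ∀ x, e x x = 0)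
    (hn : ∀ x, (∀ y, e y x = 0) → x = 0) (φ : V →ₗ[ZMod 2] ZMod 2) : ∃ m, e m = φ := by
  have hinj : Function.Injective e := by
    rw [injective_iff_map_eq_zero]
    intro x hx
    apply e_nd' he hn
    intro y
    rw [hx]
    rfl
  have h1 : Module.finrank (ZMod 2) V = Module.finrank (ZMod 2) (V →ₗ[ZMod 2] ZMod 2) :=
    (Subspace.dual_finrank_eq (K := ZMod 2) (V := V)).symm
  exact (LinearMap.injective_iff_surjective_of_finrank_eq_finrank h1).1 hinj φ

/-- Case 2 (b): a maximal totally singular subspace which does not project onto `V ^ r`. -/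
theorem dep_of_proj {e : V →ₗ[ZMod 2] V →ₗ[ZMod 2] ZMod 2} (he : ∀ x, e x x = 0)
    (hn : ∀ x, (∀ y, e y x = 0) → x = 0) {r : ℕ} {F : Type} (T : F → V →ₗ[ZMod 2] V)
    (hs : ∀ f w w', e w' (T f w) = e w (T f w'))
    (hge : Algebra.adjoin (ZMod 2) (Set.range T : Set (Module.End (ZMod 2) V)) = ⊤)
    (g : F → Fin r → V) (a : (Fin r → V) × (Fin r → V))
    (W : Submodule (ZMod 2) ((Fin r → V) × (Fin r → V)))
    (hW : ∀ z ∈ W, qq e z = 0) (hc : Nat.card W = Nat.card V ^ r)
    (hgood : ∀ z, z + a ∈ W → ∀ f, pr e z.2 (fun i => g f i + T f (z.1 i)) = 0)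
    (hV : W.map (LinearMap.fst (ZMod 2) (Fin r → V) (Fin r → V)) ≠ ⊤)
    {J : Type} (z : J → (Fin r → V) × (Fin r → V)) (hz : ∀ j, z j + a ∈ W) :
    Dep T g (fun j => (z j).1) := by
  classical
  -- the orthogonal of the projection
  set M : Submodule (ZMod 2) (Fin r → V) :=
    { carrier := {m | ∀ x ∈ W, pr e m x.1 = 0}
      add_mem' := by
        intro m m' h h' x hx
        rw [pr_add_left, h x hx, h' x hx, add_zero]
      zero_mem' := by
        intro x _
        exact pr_zero_left _
      smul_mem' := by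
        intro s m h x hx
        rw [pr_smul_left, h x hx, mul_zero] } with hMdef
  have hM : ∀ m, m ∈ M ↔ ∀ x ∈ W, pr e m x.1 = 0 := fun m => Iff.rfl
  -- `(0, m)` is in `W`
  have hmem : ∀ m ∈ M, ((0, m) : (Fin r → V) × (Fin r → V)) ∈ W := by
    intro m hm
    apply mem_of_max he hn W hW hc
    · exact pr_zero_right _
    · intro y hy
      rw [bb_apply, pr_zero_right, add_zero]
      exact hm y hy
  -- the key relation
  have hkey : ∀ z, z + a ∈ W → ∀ m ∈ M, ∀ f, pr e m (fun i => g f i + T f (z.1 i)) = 0 := by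
    intro z hz m hm f
    have h1 := hgood z hz f
    have h2 := hgood (z + (0, m)) (by
      have := W.add_mem hz (hmem m hm)
      rwa [add_right_comm]) f
    simp only [Prod.snd_add, Prod.fst_add, Pi.add_apply, Pi.zero_apply, add_zero] at h2
    rw [pr_add_left, h1, zero_add] at h2
    exact h2
  -- `M` is stable
  have hst : ∀ f, ∀ x ∈ M, (fun i => T f (x i)) ∈ M := by
    intro f m hm
    rw [hM]
    intro x hx
    have e0 : a + a ∈ W := by rw [two_Z]; exact W.zero_mem
    have h1 := hkey a e0 m hm f
    have h2 := hkey (x + a) (by rw [add_assoc, two_Z, add_zero]; exact hx) m hm f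
    have h3 : pr e m (fun i => g f i + T f ((x + a).1 i)) +
        pr e m (fun i => g f i + T f (a.1 i)) = pr e m (fun i => T f (x.1 i)) := by
      rw [← pr_add_right]
      congr 1
      funext i
      simp only [Pi.add_apply, Prod.fst_add, map_add]
      have : ∀ p q s : V, p + (q + s) + (p + s) = q := by
        intro p q s
        have h5 : p + (q + s) + (p + s) = q + (p + p) + (s + s) := by abel
        rw [h5, add_self_V, add_self_V, add_zero, add_zero]
      exact this _ _ _
    rw [h1, h2, add_zero] at h3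
    have h4 : pr e (fun i => T f (m i)) x.1 = pr e m (fun i => T f (x.1 i)) := by
      simp only [pr]
      refine Finset.sum_congr rfl fun i _ => ?_
      rw [e_comm he, ← hs f]
    rw [h4, ← h3]
  -- `M` is not trivial
  have hMne : M ≠ ⊥ := by
    intro hbot
    apply hV
    by_contra hV'
    obtain ⟨φ, hφ, hφW⟩ := Submodule.exists_le_ker_of_lt_top _ (lt_top_iff_ne_top.2 hV')
    -- the vector representing `φ`
    choose m hm using fun i : Fin r =>
      exists_rep he hn (φ ∘ₗ LinearMap.single (ZMod 2) (fun _ : Fin r => V) i)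
    have hrep : ∀ x, pr e m x = φ x := by
      intro x
      have e1 : x = ∑ i, Pi.single i (x i) := (Finset.univ_sum_single x).symm
      conv_rhs => rw [e1]
      rw [map_sum]
      refine Finset.sum_congr rfl fun i _ => ?_
      rw [hm]
      rfl
    have hmM : m ∈ M := by
      rw [hM]
      intro x hx
      rw [hrep]
      exact hφW (Submodule.mem_map_of_mem hx)
    rw [hbot, Submodule.mem_bot] at hmM
    apply hφ
    refine LinearMap.ext fun x => ?_
    rw [← hrep x, hmM, pr_zero_left]
    rfl
  obtain ⟨α, hα, hαM⟩ := stable_sub hn T hge M hMne hst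
  have hprα : ∀ (w : V) (x : Fin r → V), pr e (fun i => α i • w) x = e w (∑ i, α i • x i) := by
    intro w x
    rw [map_sum]
    refine Finset.sum_congr rfl fun i _ => ?_
    rw [map_smul, map_smul, LinearMap.smul_apply]
  have hconst : ∀ z, z + a ∈ W → ∑ i, α i • z.1 i = ∑ i, α i • a.1 i := by
    intro z hz
    have h1 : ∀ w, e w (∑ i, α i • (z + a).1 i) = 0 := by
      intro w
      rw [← hprα]
      exact (hM _).1 (hαM w) _ hz
    have h2 : ∑ i, α i • (z + a).1 i = 0 := hn _ h1
    have h3 : ∑ i, α i • (z + a).1 i = ∑ i, α i • z.1 i + ∑ i, α i • a.1 i := by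
      rw [← Finset.sum_add_distrib]
      refine Finset.sum_congr rfl fun i _ => ?_
      rw [Prod.fst_add, Pi.add_apply, smul_add]
    rw [h3] at h2
    exact eq_of_add_V _ _ h2
  refine ⟨α, hα, ∑ i, α i • a.1 i, fun j => hconst _ (hz j), fun f => ?_⟩
  have e0 : a + a ∈ W := by rw [two_Z]; exact W.zero_mem
  have h1 : ∀ w, e w (∑ i, α i • (g f i + T f (a.1 i))) = 0 := by
    intro w
    rw [← hprα]
    exact hkey a e0 _ (hαM w) f
  have h2 : ∑ i, α i • (g f i + T f (a.1 i)) = 0 := hn _ h1
  have h3 : ∑ i, α i • (g f i + T f (a.1 i)) = ∑ i, α i • g f i + T f (∑ i, α i • a.1 i) := by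
    rw [map_sum, ← Finset.sum_add_distrib]
    refine Finset.sum_congr rfl fun i _ => ?_
    rw [smul_add, map_smul]
  rw [h3] at h2
  exact eq_of_add_V _ _ h2

omit [Finite V] in
/-- the span of the differences of a pairwise unlinked family -/
theorem span_diff {e : V →ₗ[ZMod 2] V →ₗ[ZMod 2] ZMod 2} {r : ℕ} {J : Type}
    (z : J → (Fin r → V) × (Fin r → V)) (hz : ∀ i j, Unl e (z i) (z j)) (j0 : J) :
    ∀ y ∈ Submodule.span (ZMod 2) (Set.range fun j => z j + z j0), qq e y = 0 := by
  have hq : ∀ i j, qq e (z i + z j) = 0 := fun i j => hz i j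
  refine span_singular _ ?_ ?_
  · rintro _ ⟨i, rfl⟩
    exact hq i j0
  · rintro _ ⟨i, rfl⟩ _ ⟨j, rfl⟩
    have h1 := qq_add (e := e) (z i + z j0) (z j + z j0)
    have h2 : z i + z j0 + (z j + z j0) = z i + z j := by
      rw [add_add_add_comm, two_Z, add_zero]
    rw [h2, hq, hq, hq, zero_add, zero_add] at h1
    exact h1.symm

end final

end Lin

section core

variable (V : Type) [AddCommGroup V] [Module (ZMod 2) V] [Finite V]

open Lin in
theorem T2core [Nontrivial V] (r kk : ℕ) (hr : 1 ≤ r) : ∃ C : ℕ,
    ∀ (e : V →ₗ[ZMod 2] V →ₗ[ZMod 2] ZMod 2) (_ : ∀ x, e x x = 0)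
    (_ : ∀ x, (∀ y, e y x = 0) → x = 0) (F : Type) (_ : Finite F)
    (T : F → V →ₗ[ZMod 2] V)
    (_ : ∀ f w w', e w' (T f w) = e w (T f w'))
    (_ : Algebra.adjoin (ZMod 2) (Set.range T : Set (Module.End (ZMod 2) V)) = ⊤)
    (g : F → Fin r → V) (m : ℕ) (W : Finset (Fin m)),
    Nat.card {z : Fin m → (Fin r → V) × (Fin r → V) //
      (∀ i j, Unl e (z i) (z j)) ∧
      (∀ f j, pr e (z j).2 (fun i => g f i + T f ((z j).1 i)) = 0) ∧
      ¬ Dep T g (fun j => (z j).1) ∧
      ∃ v : Fin r → V, Nat.card {j : Fin m // j ∈ W ∧ (z j).1 = v} < kk} ≤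
      C * (W.card + 1) ^ kk * (Nat.card V ^ r - 1) ^ W.card *
        (Nat.card V ^ r) ^ (m - W.card) := by
  classical
  have := Fintype.ofFinite V
  have hfin : Finite (Submodule (ZMod 2) ((Fin r → V) × (Fin r → V))) := inferInstance
  have := Fintype.ofFinite (Submodule (ZMod 2) ((Fin r → V) × (Fin r → V)))
  set N := Nat.card V ^ r with hNdef
  have hN : 2 ≤ N := by
    have h1 : 1 < Nat.card V := Finite.one_lt_card
    calc 2 ≤ Nat.card V ^ 1 := by rw [pow_one]; omega
      _ ≤ Nat.card V ^ r := Nat.pow_le_pow_right (by omega) hr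
  have hcE : Fintype.card (Fin r → V) = N := by
    rw [Fintype.card_fun, Fintype.card_fin, hNdef, Nat.card_eq_fintype_card]
  refine ⟨Fintype.card (((Fin r → V) × (Fin r → V)) ×
    Submodule (ZMod 2) ((Fin r → V) × (Fin r → V))) * N, ?_⟩
  intro e he hn F hF T hs hge g m W
  set X : Finset (Fin m → (Fin r → V) × (Fin r → V)) := Finset.univ.filter fun z =>
      (∀ i j, Unl e (z i) (z j)) ∧
      (∀ f j, pr e (z j).2 (fun i => g f i + T f ((z j).1 i)) = 0) ∧
      ¬ Dep T g (fun j => (z j).1) ∧
      ∃ v : Fin r → V, Nat.card {j : Fin m // j ∈ W ∧ (z j).1 = v} < kk with hX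
  have hXc : Nat.card {z : Fin m → (Fin r → V) × (Fin r → V) //
      (∀ i j, Unl e (z i) (z j)) ∧
      (∀ f j, pr e (z j).2 (fun i => g f i + T f ((z j).1 i)) = 0) ∧
      ¬ Dep T g (fun j => (z j).1) ∧
      ∃ v : Fin r → V, Nat.card {j : Fin m // j ∈ W ∧ (z j).1 = v} < kk} = X.card := by
    rw [Nat.card_eq_fintype_card, Fintype.card_subtype]
  rw [hXc]
  set P : ((Fin r → V) × (Fin r → V)) × Submodule (ZMod 2) ((Fin r → V) × (Fin r → V)) →
      Finset (Fin m → (Fin r → V) × (Fin r → V)) := fun p =>
    X.filter fun z => (∀ y ∈ p.2, qq e y = 0) ∧ ∀ j, z j + p.1 ∈ p.2 with hP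
  -- every counted sequence is in some `P`
  have hcover : X ⊆ Finset.univ.biUnion P := by
    intro z hz
    have hz' := (Finset.mem_filter.1 hz).2
    rcases isEmpty_or_nonempty (Fin m) with hm | ⟨⟨j0⟩⟩
    · refine Finset.mem_biUnion.2 ⟨(0, ⊥), Finset.mem_univ _, Finset.mem_filter.2 ⟨hz, ?_, ?_⟩⟩
      · intro y hy
        rw [(Submodule.mem_bot _).1 hy]
        exact pr_zero_left _
      · intro j
        exact (hm.false j).elim
    · refine Finset.mem_biUnion.2 ⟨(z j0, Submodule.span (ZMod 2) (Set.range fun j => z j + z j0)),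
        Finset.mem_univ _, Finset.mem_filter.2 ⟨hz, ?_, ?_⟩⟩
      · exact span_diff z hz'.1 j0
      · intro j
        exact Submodule.subset_span ⟨j, rfl⟩
  -- the bound for one `P`
  have hbound : ∀ p, (P p).card ≤ N * ((W.card + 1) ^ kk *
      ((N - 1) ^ W.card * N ^ (m - W.card))) := by
    rintro ⟨a, W0⟩
    by_cases hsing : ∀ y ∈ W0, qq e y = 0
    swap
    · have : P (a, W0) = ∅ := by
        rw [hP]
        refine Finset.filter_eq_empty_iff.2 ?_
        intro z _ h
        exact hsing h.1
      rw [this, Finset.card_empty]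
      exact Nat.zero_le _
    set good : Finset ((Fin r → V) × (Fin r → V)) := Finset.univ.filter fun z =>
      z + a ∈ W0 ∧ ∀ f, pr e z.2 (fun i => g f i + T f (z.1 i)) = 0 with hgood
    have hsub : P (a, W0) ⊆ Fintype.piFinset fun _ => good := by
      intro z hz
      have hz' := Finset.mem_filter.1 hz
      have hz2 := (Finset.mem_filter.1 hz'.1).2
      exact Fintype.mem_piFinset.2 fun j => Finset.mem_filter.2 ⟨Finset.mem_univ _, hz'.2.2 j,
        fun f => hz2.2.1 f j⟩
    have hW0c : Nat.card W0 ≤ N := card_singular he hn W0 hsing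
    set coset : Finset ((Fin r → V) × (Fin r → V)) := Finset.univ.filter fun z =>
      z + a ∈ W0 with hcoset
    have hcosc : coset.card = Nat.card W0 := by
      rw [hcoset, Nat.card_eq_fintype_card, Fintype.card_subtype]
      refine Finset.card_bij (fun z _ => z + a) ?_ ?_ ?_
      · intro z hz
        exact Finset.mem_filter.2 ⟨Finset.mem_univ _, (Finset.mem_filter.1 hz).2⟩
      · intro x _ y _ h
        exact add_right_cancel h
      · intro y hy
        refine ⟨y + a, Finset.mem_filter.2 ⟨Finset.mem_univ _, ?_⟩, ?_⟩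
        · rw [add_assoc, two_Z, add_zero]
          exact (Finset.mem_filter.1 hy).2
        · rw [add_assoc, two_Z, add_zero]
    have hgc : good ⊆ coset := by
      intro z hz
      exact Finset.mem_filter.2 ⟨Finset.mem_univ _, (Finset.mem_filter.1 hz).2.1⟩
    by_cases hlt : good.card < N
    · -- case 1
      have h1 : (P (a, W0)).card ≤ (N - 1) ^ m := by
        refine le_trans (Finset.card_le_card hsub) ?_
        rw [Fintype.card_piFinset, Finset.prod_const, Finset.card_univ, Fintype.card_fin]
        exact Nat.pow_le_pow_left (by omega) _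
      have hWm : W.card ≤ m := by
        have := Finset.card_le_univ W
        rwa [Fintype.card_fin] at this
      have h2 : (N - 1) ^ m ≤ (N - 1) ^ W.card * N ^ (m - W.card) := by
        calc (N - 1) ^ m = (N - 1) ^ W.card * (N - 1) ^ (m - W.card) := by
              rw [← pow_add]; congr 1; omega
          _ ≤ _ := Nat.mul_le_mul_left _ (Nat.pow_le_pow_left (by omega) _)
      have h3 : 1 ≤ N * (W.card + 1) ^ kk :=
        Nat.mul_pos (by omega) (by positivity)
      calc (P (a, W0)).card ≤ 1 * ((N - 1) ^ W.card * N ^ (m - W.card)) := by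
            rw [one_mul]; exact le_trans h1 h2
        _ ≤ (N * (W.card + 1) ^ kk) * ((N - 1) ^ W.card * N ^ (m - W.card)) :=
            Nat.mul_le_mul_right _ h3
        _ = _ := by ring
    · -- case 2
      have hgcard := Finset.card_le_card hgc
      rw [hcosc] at hgcard
      have hW0 : Nat.card W0 = N := by omega
      have hgeq : good = coset := Finset.eq_of_subset_of_card_le hgc (by rw [hcosc]; omega)
      have hall : ∀ z, z + a ∈ W0 → ∀ f, pr e z.2 (fun i => g f i + T f (z.1 i)) = 0 := by
        intro z hz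
        have : z ∈ good := by
          rw [hgeq]
          exact Finset.mem_filter.2 ⟨Finset.mem_univ _, hz⟩
        exact (Finset.mem_filter.1 this).2.2
      by_cases hV : W0.map (LinearMap.fst (ZMod 2) (Fin r → V) (Fin r → V)) = ⊤
      · -- the projection is a bijection
        have hsurj : Set.SurjOn (Prod.fst : (Fin r → V) × (Fin r → V) → (Fin r → V)) coset
            (Finset.univ : Finset (Fin r → V)) := by
          intro x _
          have hx : x + a.1 ∈ W0.map (LinearMap.fst (ZMod 2) (Fin r → V) (Fin r → V)) := by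
            rw [hV]; exact Submodule.mem_top
          obtain ⟨y, hy, hyx⟩ := hx
          refine ⟨y + a, ?_, ?_⟩
          · refine Finset.mem_coe.2 (Finset.mem_filter.2 ⟨Finset.mem_univ _, ?_⟩)
            rw [add_assoc, two_Z, add_zero]
            exact hy
          · change y.1 + a.1 = x
            have h1 : y.1 = x + a.1 := hyx
            rw [h1, add_assoc, two_E, add_zero]
        have hinj : Set.InjOn (Prod.fst : (Fin r → V) × (Fin r → V) → (Fin r → V)) coset := by
          refine Finset.injOn_of_surjOn_of_card_le _ ?_ hsurj ?_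
          · intro x _
            exact Finset.mem_coe.2 (Finset.mem_univ _)
          · rw [hcosc, hW0, Finset.card_univ, hcE]
        have h2 := Sm.BJ2.J2.card_nongeneric (E := Fin r → V) (by rw [hcE]; exact hN) m kk W
        rw [hcE] at h2
        refine le_trans ?_ h2
        refine Finset.card_le_card_of_injOn (fun z j => (z j).1) ?_ ?_
        · intro z hz
          have hz2 := (Finset.mem_filter.1 (Finset.mem_filter.1 hz).1).2
          obtain ⟨v, hv⟩ := hz2.2.2.2
          refine Finset.mem_coe.2 (Finset.mem_filter.2 ⟨Finset.mem_univ _, v, ?_⟩)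
          rw [Nat.card_eq_fintype_card, Fintype.card_subtype] at hv
          refine lt_of_le_of_lt (le_of_eq ?_) hv
          congr 1
          ext j
          simp
        · intro z hz z' hz' h
          have hz2 := (Finset.mem_filter.1 hz).2
          have hz2' := (Finset.mem_filter.1 hz').2
          funext j
          exact hinj (Finset.mem_coe.2 (Finset.mem_filter.2 ⟨Finset.mem_univ _, hz2.2 j⟩))
            (Finset.mem_coe.2 (Finset.mem_filter.2 ⟨Finset.mem_univ _, hz2'.2 j⟩))
            (congrFun h j)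
      · -- dependent
        have : P (a, W0) = ∅ := by
          refine Finset.filter_eq_empty_iff.2 ?_
          intro z hz h
          have hz2 := (Finset.mem_filter.1 hz).2
          exact hz2.2.2.1 (dep_of_proj he hn T hs hge g a W0 hsing hW0 hall hV z h.2)
        rw [this, Finset.card_empty]
        exact Nat.zero_le _
  calc X.card ≤ (Finset.univ.biUnion P).card := Finset.card_le_card hcover
    _ ≤ Finset.univ.card * (N * ((W.card + 1) ^ kk *
        ((N - 1) ^ W.card * N ^ (m - W.card)))) :=
        Finset.card_biUnion_le_card_mul _ _ _ fun p _ => hbound p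
    _ = _ := by
        rw [Finset.card_univ]
        ring

open Lin in
theorem T1core (r : ℕ) : ∃ C : ℕ,
    ∀ (e : V →ₗ[ZMod 2] V →ₗ[ZMod 2] ZMod 2) (_ : ∀ x, e x x = 0)
    (_ : ∀ x, (∀ y, e y x = 0) → x = 0) (S : Type) (_ : Finite S) (m : ℕ),
    Nat.card {z : (S → (Fin r → V) × (Fin r → V)) × (Fin m → (Fin r → V) × (Fin r → V)) //
      (∀ i j, Unl e (z.2 i) (z.2 j)) ∧ ∀ s j, Unl e (z.1 s) (z.2 j)} ≤
      C * ((Nat.card V ^ r) ^ (Nat.card S + m) +
        (Nat.card V ^ r / 2) ^ m * ((Nat.card V ^ r) ^ 2) ^ Nat.card S) := by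
  classical
  have := Fintype.ofFinite V
  have hfin : Finite (Submodule (ZMod 2) ((Fin r → V) × (Fin r → V))) := inferInstance
  have := Fintype.ofFinite (Submodule (ZMod 2) ((Fin r → V) × (Fin r → V)))
  set N := Nat.card V ^ r with hNdef
  have hcE : Fintype.card (Fin r → V) = N := by
    rw [Fintype.card_fun, Fintype.card_fin, hNdef, Nat.card_eq_fintype_card]
  have hcZ : Fintype.card ((Fin r → V) × (Fin r → V)) = N ^ 2 := by
    rw [Fintype.card_prod, hcE, sq]
  refine ⟨Fintype.card (((Fin r → V) × (Fin r → V)) ×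
    Submodule (ZMod 2) ((Fin r → V) × (Fin r → V))), ?_⟩
  intro e he hn S hS m
  have := Fintype.ofFinite S
  set X : Finset ((S → (Fin r → V) × (Fin r → V)) × (Fin m → (Fin r → V) × (Fin r → V))) :=
    Finset.univ.filter fun z =>
      (∀ i j, Unl e (z.2 i) (z.2 j)) ∧ ∀ s j, Unl e (z.1 s) (z.2 j) with hX
  rw [Nat.card_eq_fintype_card, Fintype.card_subtype]
  set coset : ((Fin r → V) × (Fin r → V)) × Submodule (ZMod 2) ((Fin r → V) × (Fin r → V)) →
      Finset ((Fin r → V) × (Fin r → V)) := fun p =>
    Finset.univ.filter fun z => z + p.1 ∈ p.2 with hcoset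
  have hcosc : ∀ p, (coset p).card = Nat.card p.2 := by
    rintro ⟨a, W0⟩
    rw [hcoset, Nat.card_eq_fintype_card, Fintype.card_subtype]
    refine Finset.card_bij (fun z _ => z + a) ?_ ?_ ?_
    · intro z hz
      exact Finset.mem_filter.2 ⟨Finset.mem_univ _, (Finset.mem_filter.1 hz).2⟩
    · intro x _ y _ h
      exact add_right_cancel h
    · intro y hy
      refine ⟨y + a, Finset.mem_filter.2 ⟨Finset.mem_univ _, ?_⟩, ?_⟩
      · change y + a + a ∈ W0
        rw [add_assoc, two_Z, add_zero]
        exact (Finset.mem_filter.1 hy).2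
      · rw [add_assoc, two_Z, add_zero]
  set P : ((Fin r → V) × (Fin r → V)) × Submodule (ZMod 2) ((Fin r → V) × (Fin r → V)) →
      Finset ((S → (Fin r → V) × (Fin r → V)) × (Fin m → (Fin r → V) × (Fin r → V))) := fun p =>
    X.filter fun z => (∀ y ∈ p.2, qq e y = 0) ∧ (∀ j, z.2 j + p.1 ∈ p.2) ∧
      (Nat.card p.2 = N → ∀ s, z.1 s + p.1 ∈ p.2) with hP
  rcases Nat.eq_zero_or_pos m with hm0 | hm0
  · -- no large entries
    subst hm0
    refine le_trans (Finset.card_le_univ X) ?_
    have h1 : Fintype.card ((S → (Fin r → V) × (Fin r → V)) ×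
        (Fin 0 → (Fin r → V) × (Fin r → V))) = (N ^ 2) ^ Nat.card S := by
      rw [Fintype.card_prod, Fintype.card_fun, Fintype.card_fun, Fintype.card_fin, pow_zero,
        mul_one, hcZ, Nat.card_eq_fintype_card]
    rw [h1, pow_zero, one_mul]
    have h2 : 1 ≤ Fintype.card (((Fin r → V) × (Fin r → V)) ×
        Submodule (ZMod 2) ((Fin r → V) × (Fin r → V))) := Fintype.card_pos
    calc (N ^ 2) ^ Nat.card S ≤ N ^ (Nat.card S + 0) + (N ^ 2) ^ Nat.card S :=
          Nat.le_add_left _ _
      _ = 1 * (N ^ (Nat.card S + 0) + (N ^ 2) ^ Nat.card S) := (one_mul _).symm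
      _ ≤ _ := Nat.mul_le_mul_right _ h2
  have hcover : X ⊆ Finset.univ.biUnion P := by
    intro z hz
    have hz' := (Finset.mem_filter.1 hz).2
    let j0 : Fin m := ⟨0, hm0⟩
    refine Finset.mem_biUnion.2 ⟨(z.2 j0, Submodule.span (ZMod 2)
      (Set.range fun j => z.2 j + z.2 j0)),
      Finset.mem_univ _, Finset.mem_filter.2 ⟨hz, ?_, ?_, ?_⟩⟩
    · exact span_diff z.2 hz'.1 j0
    · intro j
      exact Submodule.subset_span ⟨j, rfl⟩
    · intro hc s
      apply mem_of_max he hn _ (span_diff z.2 hz'.1 j0) hc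
      · exact hz'.2 s j0
      · intro y hy
        induction hy using Submodule.span_induction with
        | mem y hy =>
          obtain ⟨j, rfl⟩ := hy
          have h1 := qq_add (e := e) (z.1 s + z.2 j0) (z.2 j + z.2 j0)
          have h2 : z.1 s + z.2 j0 + (z.2 j + z.2 j0) = z.1 s + z.2 j := by
            rw [add_add_add_comm, two_Z, add_zero]
          have h3 : ∀ j, qq e (z.1 s + z.2 j) = 0 := fun j => hz'.2 s j
          have h4 : qq e (z.2 j + z.2 j0) = 0 := hz'.1 j j0
          rw [h2, h3, h3, h4, zero_add, zero_add] at h1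
          exact h1.symm
        | zero => simp
        | add a b _ _ ha hb => rw [map_add, ha, hb, add_zero]
        | smul c a _ ha => rw [map_smul, ha, smul_zero]
  have hbound : ∀ p, (P p).card ≤
      N ^ (Nat.card S + m) + (N / 2) ^ m * (N ^ 2) ^ Nat.card S := by
    rintro ⟨a, W0⟩
    by_cases hsing : ∀ y ∈ W0, qq e y = 0
    swap
    · have : P (a, W0) = ∅ := by
        rw [hP]
        refine Finset.filter_eq_empty_iff.2 ?_
        intro z _ h
        exact hsing h.1
      rw [this, Finset.card_empty]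
      exact Nat.zero_le _
    by_cases hc : Nat.card W0 = N
    · refine le_trans ?_ (Nat.le_add_right _ _)
      have hsub : P (a, W0) ⊆ (Fintype.piFinset fun _ : S => coset (a, W0)) ×ˢ
          (Fintype.piFinset fun _ : Fin m => coset (a, W0)) := by
        intro z hz
        have hz' := (Finset.mem_filter.1 hz).2
        refine Finset.mem_product.2 ⟨Fintype.mem_piFinset.2 fun s => ?_,
          Fintype.mem_piFinset.2 fun j => ?_⟩
        · exact Finset.mem_filter.2 ⟨Finset.mem_univ _, hz'.2.2 hc s⟩
        · exact Finset.mem_filter.2 ⟨Finset.mem_univ _, hz'.2.1 j⟩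
      refine le_trans (Finset.card_le_card hsub) (le_of_eq ?_)
      rw [Finset.card_product, Fintype.card_piFinset, Fintype.card_piFinset, Finset.prod_const,
        Finset.prod_const, hcosc, hc, Finset.card_univ, Finset.card_univ, Fintype.card_fin,
        ← pow_add, Nat.card_eq_fintype_card]
    · refine le_trans ?_ (Nat.le_add_left _ _)
      have hsub : P (a, W0) ⊆ (Finset.univ : Finset (S → (Fin r → V) × (Fin r → V))) ×ˢ
          (Fintype.piFinset fun _ : Fin m => coset (a, W0)) := by
        intro z hz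
        have hz' := (Finset.mem_filter.1 hz).2
        refine Finset.mem_product.2 ⟨Finset.mem_univ _, Fintype.mem_piFinset.2 fun j => ?_⟩
        exact Finset.mem_filter.2 ⟨Finset.mem_univ _, hz'.2.1 j⟩
      refine le_trans (Finset.card_le_card hsub) ?_
      rw [Finset.card_product, Fintype.card_piFinset, Finset.prod_const, hcosc,
        Finset.card_univ, Finset.card_univ, Fintype.card_fin, Fintype.card_fun, hcZ, mul_comm,
        ← Nat.card_eq_fintype_card]
      exact Nat.mul_le_mul_right _ (Nat.pow_le_pow_left (card_singular_lt he hn W0 hsing hc) _)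
  calc X.card ≤ (Finset.univ.biUnion P).card := Finset.card_le_card hcover
    _ ≤ Finset.univ.card * (N ^ (Nat.card S + m) + (N / 2) ^ m * (N ^ 2) ^ Nat.card S) :=
        Finset.card_biUnion_le_card_mul _ _ _ fun p _ => hbound p
    _ = _ := by
        rw [Finset.card_univ]

end core

end Pool.Agent.SmJ.BJ
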