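import Pool.Agent.Lib.SmJ.Pat
import Pool.Agent.Lib.SmJ.Lin
import Pool.Agent.Lib.Sm.J7

/-!
Project SMITH for Jacobians, block J, module GridT: the expected number of Selmer elements and of
non-generic `r`-tuples in a grid (`Sm/J7.lean` for a general `V`).
-/

set_option autoImplicit false

open Polynomial Pool.Agent.BSDP.R

namespace Pool.Agent.SmJ.BJ

open Pool.Agent.Sm (leg Irr PD)
open Pool.Agent.Sm.BJ (Pat pat Grid NearU push_count double_count card_mono)

variable {V : Type} [AddCommGroup V] [Module (ZMod 2) V] [Finite V]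

omit [AddCommGroup V] [Module (ZMod 2) V] [Finite V] in
theorem card_E (r : ℕ) : Nat.card (Fin r → V) = Nat.card V ^ r := by
  rw [Nat.card_fun, Nat.card_eq_fintype_card (α := Fin r), Fintype.card_fin]

section
variable {k : Type} [Field k] [Finite k]

theorem grid_L (h2 : (2 : k) ≠ 0) (d : TwData k V) {r m : ℕ} {S : Type} [Fintype S]
    {ps : S → k[X]} {dg : Fin m → ℕ} (hinj : Function.Injective dg)
    (hU : NearU (Sum.elim ps d.ell) dg) (c : Fin r → CodeF V d.h (S ⊕ Fin m)) :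
    Nat.card {P : Grid k dg //
        ∀ j i, condF d (Sum.elim ps fun j => (P j).1) (c i) (Sum.inr j) = 0} * (Nat.card V ^ r) ^ m ≤
      2 * Nat.card (Grid k dg) * Nat.card {l : Fin m → Fin r → V //
        (∀ i j, Unl d.e (xF c i, l i) (xF c j, l j)) ∧
        ∀ f j, pr d.e (l j) (fun i => gF c f i + TF d S f (xF c j i)) = 0} := by
  classical
  set Q := Pat (S ⊕ Fin d.h) m with hQ
  have hQ0 : 0 < Nat.card Q := Nat.card_pos
  set Φ := PhiL (TF d S) (gF c) (xF c) (m := m) with hΦ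
  have h1 : Nat.card {P : Grid k dg //
        ∀ j i, condF d (Sum.elim ps fun j => (P j).1) (c i) (Sum.inr j) = 0} ≤
      Nat.card {P : Grid k dg // Φ (pat (Sum.elim ps d.ell) fun j => (P j).1) = KL d dg c} := by
    apply card_mono
    intro P hP
    funext j i
    have h3 := hP j i
    have hPinj : Function.Injective fun j => (P j).1 := by
      intro a b hab
      apply hinj
      have ha := (P a).2.2.2
      have hb := (P b).2.2.2
      rw [← ha, ← hb]
      exact congrArg natDegree hab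
    rw [condF_inr h2 d ps (fun j => (P j).2.1) (fun j => (P j).2.2.1) hPinj dg
      (fun j => (P j).2.2.2) c j i] at h3
    exact eq_of_add_V _ _ h3
  have h3 := push_count (G := Grid k dg) (Q := Q)
    (fun P => pat (Sum.elim ps d.ell) fun j => (P j).1) _ hU (fun ξ => Φ ξ = KL d dg c)
  have h4 := dual_count d.nd Φ (KL d dg c)
  rw [Fintype.card_fin] at h4
  have h5 : Nat.card {l : Fin m → Fin r → V // ∀ ξ, ∑ i, pr d.e (l i) (Φ ξ i) = 0} ≤
      Nat.card {l : Fin m → Fin r → V //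
        (∀ i j, Unl d.e (xF c i, l i) (xF c j, l j)) ∧
        ∀ f j, pr d.e (l j) (fun i => gF c f i + TF d S f (xF c j i)) = 0} := by
    exact card_mono fun l hl => annL _ _ _ _ hl
  refine Nat.le_of_mul_le_mul_right ?_ hQ0
  calc _ ≤ Nat.card {P : Grid k dg //
        Φ (pat (Sum.elim ps d.ell) fun j => (P j).1) = KL d dg c} * (Nat.card V ^ r) ^ m * Nat.card Q :=
        Nat.mul_le_mul_right _ (Nat.mul_le_mul_right _ h1)
    _ = (Nat.card {P : Grid k dg //
        Φ (pat (Sum.elim ps d.ell) fun j => (P j).1) = KL d dg c} * Nat.card Q) * (Nat.card V ^ r) ^ m := by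
        ring
    _ ≤ (Nat.card {ξ // Φ ξ = KL d dg c} * (2 * Nat.card (Grid k dg))) * (Nat.card V ^ r) ^ m :=
        Nat.mul_le_mul_right _ h3
    _ = (2 * Nat.card (Grid k dg)) * (Nat.card {ξ // Φ ξ = KL d dg c} * (Nat.card V ^ r) ^ m) := by ring
    _ ≤ (2 * Nat.card (Grid k dg)) * (Nat.card Q *
        Nat.card {l : Fin m → Fin r → V // ∀ ξ, ∑ i, pr d.e (l i) (Φ ξ i) = 0}) :=
        Nat.mul_le_mul_left _ h4
    _ ≤ (2 * Nat.card (Grid k dg)) * (Nat.card Q * _) :=
        Nat.mul_le_mul_left _ (Nat.mul_le_mul_left _ h5)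
    _ = _ := by ring

theorem grid_A (h2 : (2 : k) ≠ 0) (d : TwData k V) {r m : ℕ} {S : Type} [Fintype S]
    {ps : S → k[X]} (hps : ∀ s, (ps s).Monic) (hpi : ∀ s, Irreducible (ps s))
    {dg : Fin m → ℕ} (hinj : Function.Injective dg) (hne : ∀ s j, (ps s).natDegree ≠ dg j)
    (hU : NearU (Sum.elim ps d.ell) dg) (c : Fin r → CodeF V d.h (S ⊕ Fin m)) :
    Nat.card {P : Grid k dg //
        ∀ a i, condF d (Sum.elim ps fun j => (P j).1) (c i) a = 0} *
          (Nat.card V ^ r) ^ (Nat.card S + m) ≤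
      2 * Nat.card (Grid k dg) * Nat.card {l : S ⊕ Fin m → Fin r → V //
        (∀ i j, Unl d.e (xF c i, l (Sum.inr i)) (xF c j, l (Sum.inr j))) ∧
        ∀ s j, Unl d.e (yF c s, l (Sum.inl s)) (xF c j, l (Sum.inr j))} := by
  classical
  set Q := Pat (S ⊕ Fin d.h) m with hQ
  have hQ0 : 0 < Nat.card Q := Nat.card_pos
  set Φ := PhiA (TF d S) (gF c) (yF c) (xF c) with hΦ
  set K : S ⊕ Fin m → Fin r → V := Sum.elim (KS d ps dg c) (KL d dg c) with hK
  have h1 : Nat.card {P : Grid k dg //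
        ∀ a i, condF d (Sum.elim ps fun j => (P j).1) (c i) a = 0} ≤
      Nat.card {P : Grid k dg // Φ (pat (Sum.elim ps d.ell) fun j => (P j).1) = K} := by
    apply card_mono
    intro P hP
    funext a i
    have hPinj : Function.Injective fun j => (P j).1 := by
      intro a b hab
      apply hinj
      have ha := (P a).2.2.2
      have hb := (P b).2.2.2
      rw [← ha, ← hb]
      exact congrArg natDegree hab
    have h3 := hP a i
    rcases a with s | j
    · rw [condF_inl h2 d hps hpi (fun j => (P j).2.1) (fun j => (P j).2.2.1)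
        (fun s j h => hne s j (by rw [h]; exact (P j).2.2.2)) dg
        (fun j => (P j).2.2.2) c s i] at h3
      exact eq_of_add_V _ _ h3
    · rw [condF_inr h2 d ps (fun j => (P j).2.1) (fun j => (P j).2.2.1) hPinj dg
        (fun j => (P j).2.2.2) c j i] at h3
      exact eq_of_add_V _ _ h3
  have h3 := push_count (G := Grid k dg) (Q := Q)
    (fun P => pat (Sum.elim ps d.ell) fun j => (P j).1) _ hU (fun ξ => Φ ξ = K)
  have h4 := dual_count d.nd Φ K
  rw [Fintype.card_sum, Fintype.card_fin, ← Nat.card_eq_fintype_card] at h4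
  have h5 : Nat.card {l : S ⊕ Fin m → Fin r → V // ∀ ξ, ∑ i, pr d.e (l i) (Φ ξ i) = 0} ≤
      Nat.card {l : S ⊕ Fin m → Fin r → V //
        (∀ i j, Unl d.e (xF c i, l (Sum.inr i)) (xF c j, l (Sum.inr j))) ∧
        ∀ s j, Unl d.e (yF c s, l (Sum.inl s)) (xF c j, l (Sum.inr j))} := by
    exact card_mono fun l hl => annA _ (fun _ => rfl) _ _ (fun _ => rfl) _ _ hl
  refine Nat.le_of_mul_le_mul_right ?_ hQ0
  calc _ ≤ Nat.card {P : Grid k dg //
        Φ (pat (Sum.elim ps d.ell) fun j => (P j).1) = K} *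
          (Nat.card V ^ r) ^ (Nat.card S + m) * Nat.card Q :=
        Nat.mul_le_mul_right _ (Nat.mul_le_mul_right _ h1)
    _ = (Nat.card {P : Grid k dg //
        Φ (pat (Sum.elim ps d.ell) fun j => (P j).1) = K} * Nat.card Q) *
          (Nat.card V ^ r) ^ (Nat.card S + m) := by
        ring
    _ ≤ (Nat.card {ξ // Φ ξ = K} * (2 * Nat.card (Grid k dg))) * (Nat.card V ^ r) ^ (Nat.card S + m) :=
        Nat.mul_le_mul_right _ h3
    _ = (2 * Nat.card (Grid k dg)) * (Nat.card {ξ // Φ ξ = K} * (Nat.card V ^ r) ^ (Nat.card S + m)) := by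
        ring
    _ ≤ (2 * Nat.card (Grid k dg)) * (Nat.card Q *
        Nat.card {l : S ⊕ Fin m → Fin r → V // ∀ ξ, ∑ i, pr d.e (l i) (Φ ξ i) = 0}) :=
        Nat.mul_le_mul_left _ h4
    _ ≤ (2 * Nat.card (Grid k dg)) * (Nat.card Q * _) :=
        Nat.mul_le_mul_left _ (Nat.mul_le_mul_left _ h5)
    _ = _ := by ring

/-- T2 in a grid: the number of pairs (family, non-generic independent `r`-tuple). -/
theorem T2grid [Nontrivial V] (h2 : (2 : k) ≠ 0) (d : TwData k V) (r kk : ℕ) (hr : 1 ≤ r) : ∃ C : ℕ,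
    ∀ (S : Type) (_ : Fintype S) (ps : S → k[X]) (m : ℕ) (dg : Fin m → ℕ),
      Function.Injective dg → NearU (Sum.elim ps d.ell) dg → ∀ W : Finset (Fin m),
      Nat.card {p : Grid k dg × (Fin r → CodeF V d.h (S ⊕ Fin m)) //
          (∀ j i, condF d (Sum.elim ps fun j => (p.1 j).1) (p.2 i) (Sum.inr j) = 0) ∧
          (¬ Dep (TF d S) (gF p.2) (xF p.2) ∧
            ∃ v : Fin r → V, Nat.card {j : Fin m // j ∈ W ∧ xF p.2 j = v} < kk)} *
          (Nat.card V ^ r) ^ W.card ≤
        2 * Nat.card (Grid k dg) * (Nat.card V ^ r) ^ (1 + Nat.card S + d.h) *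
          (C * (W.card + 1) ^ kk * (Nat.card V ^ r - 1) ^ W.card) := by
  classical
  obtain ⟨C, hC⟩ := T2core V r kk hr
  refine ⟨C, ?_⟩
  intro S _ ps m dg hinj hU W
  have h1 := double_count (A := Grid k dg) (B := Fin r → CodeF V d.h (S ⊕ Fin m))
    (C := Fin m → Fin r → V)
    (fun P c => ∀ j i, condF d (Sum.elim ps fun j => (P j).1) (c i) (Sum.inr j) = 0)
    (fun c l => (∀ i j, Unl d.e (xF c i, l i) (xF c j, l j)) ∧
        ∀ f j, pr d.e (l j) (fun i => gF c f i + TF d S f (xF c j i)) = 0)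
    (fun c => ¬ Dep (TF d S) (gF c) (xF c) ∧
            ∃ v : Fin r → V, Nat.card {j : Fin m // j ∈ W ∧ xF c j = v} < kk)
    ((Nat.card V ^ r) ^ m) (2 * Nat.card (Grid k dg)) (fun c => grid_L h2 d hinj hU c)
  set B := C * (W.card + 1) ^ kk * (Nat.card V ^ r - 1) ^ W.card * (Nat.card V ^ r) ^ (m - W.card) with hB
  -- the number of pairs (tuple, dual vector)
  have hsymm : ∀ f w w', d.e w' (TF d S f w) = d.e w (TF d S f w') := by
    intro f w w'
    rcases f with s | μ
    · exact e_comm d.alt _ _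
    · exact d.symm μ w w'
  have hgen : Algebra.adjoin (ZMod 2) (Set.range (TF d S) : Set (Module.End (ZMod 2) V)) = ⊤ := by
    rw [eq_top_iff, ← d.gen]
    apply Algebra.adjoin_mono
    rintro _ ⟨μ, rfl⟩
    exact ⟨Sum.inr μ, rfl⟩
  have h3 : Nat.card {p : (Fin r → CodeF V d.h (S ⊕ Fin m)) × (Fin m → Fin r → V) //
      ((∀ i j, Unl d.e (xF p.1 i, p.2 i) (xF p.1 j, p.2 j)) ∧
        ∀ f j, pr d.e (p.2 j) (fun i => gF p.1 f i + TF d S f (xF p.1 j i)) = 0) ∧
      ¬ Dep (TF d S) (gF p.1) (xF p.1) ∧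
            ∃ v : Fin r → V, Nat.card {j : Fin m // j ∈ W ∧ xF p.1 j = v} < kk} ≤
      (Nat.card V ^ r) ^ (1 + Nat.card S + d.h) * B := by
    let Z : (S ⊕ Fin d.h → Fin r → V) → Type := fun g =>
      {z : Fin m → (Fin r → V) × (Fin r → V) //
        (∀ i j, Unl d.e (z i) (z j)) ∧
        (∀ f j, pr d.e (z j).2 (fun i => g f i + TF d S f ((z j).1 i)) = 0) ∧
        ¬ Dep (TF d S) g (fun j => (z j).1) ∧
        ∃ v : Fin r → V, Nat.card {j : Fin m // j ∈ W ∧ (z j).1 = v} < kk}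
    have hfinZ : ∀ g, Finite (Z g) := fun g => Subtype.finite
    have hZ : ∀ g, Nat.card (Z g) ≤ B := fun g => hC d.e d.alt d.nd (S ⊕ Fin d.h) inferInstance
      (TF d S) hsymm hgen g m W
    let Y : Type := Σ q : (Fin r → V) × (S ⊕ Fin d.h → Fin r → V), Z q.2
    have hY : Nat.card Y ≤ (Nat.card V ^ r) ^ (1 + Nat.card S + d.h) * B := by
      have := Fintype.ofFinite ((Fin r → V) × (S ⊕ Fin d.h → Fin r → V))
      have e : Nat.card Y = ∑ q : (Fin r → V) × (S ⊕ Fin d.h → Fin r → V), Nat.card (Z q.2) :=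
        Nat.card_sigma
      rw [e]
      refine (Finset.sum_le_sum fun q _ => hZ q.2).trans ?_
      rw [Finset.sum_const, smul_eq_mul, Finset.card_univ, ← Nat.card_eq_fintype_card,
        Nat.card_prod, card_E, Nat.card_fun, card_E, Nat.card_sum]
      simp only [Nat.card_eq_fintype_card, Fintype.card_fin]
      rw [show 1 + Fintype.card S + d.h = (Fintype.card S + d.h) + 1 by ring, pow_succ]
      apply le_of_eq
      ring
    refine le_trans ?_ hY
    have hfinY : Finite Y := inferInstanceAs (Finite (Σ q : (Fin r → V) ×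
      (S ⊕ Fin d.h → Fin r → V), Z q.2))
    let F : {p : (Fin r → CodeF V d.h (S ⊕ Fin m)) × (Fin m → Fin r → V) //
      ((∀ i j, Unl d.e (xF p.1 i, p.2 i) (xF p.1 j, p.2 j)) ∧
        ∀ f j, pr d.e (p.2 j) (fun i => gF p.1 f i + TF d S f (xF p.1 j i)) = 0) ∧
      ¬ Dep (TF d S) (gF p.1) (xF p.1) ∧
            ∃ v : Fin r → V, Nat.card {j : Fin m // j ∈ W ∧ xF p.1 j = v} < kk} → Y := fun p =>
      (⟨(fun i => (p.1.1 i).1, gF p.1.1), ⟨fun j => (xF p.1.1 j, p.1.2 j), p.2.1.1, p.2.1.2,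
        p.2.2.1, p.2.2.2⟩⟩ : Y)
    apply Nat.card_le_card_of_injective F
    rintro ⟨⟨c, l⟩, hp⟩ ⟨⟨c', l'⟩, hp'⟩ heq
    have e1 : (fun i => (c i).1, gF c) = (fun i => (c' i).1, gF c') := congrArg Sigma.fst heq
    have e2 : (fun j => (xF c j, l j)) = (fun j => (xF c' j, l' j)) := by
      have h5 : ∀ (a b : Y), a = b → a.2.1 = b.2.1 := by
        rintro a b rfl
        rfl
      exact h5 _ _ heq
    have e3 : (fun i => (c i).1) = (fun i => (c' i).1) := congrArg Prod.fst e1
    have e4 : gF c = gF c' := congrArg Prod.snd e1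
    have e5 : ∀ j, xF c j = xF c' j := fun j => congrArg Prod.fst (congrFun e2 j)
    have e6 : l = l' := funext fun j => congrArg Prod.snd (congrFun e2 j)
    have e7 : c = c' := by
      funext i
      refine Prod.ext (congrFun e3 i) (Prod.ext ?_ ?_)
      · funext μ
        exact congrFun (congrFun e4 (Sum.inr μ)) i
      · funext a
        rcases a with s | j
        · exact congrFun (congrFun e4 (Sum.inl s)) i
        · exact congrFun (e5 j) i
    subst e7
    subst e6
    rfl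
  have hW : W.card ≤ m := by
    have := W.card_le_univ
    rwa [Fintype.card_fin] at this
  have h4 : (Nat.card V ^ r) ^ m = (Nat.card V ^ r) ^ W.card * (Nat.card V ^ r) ^ (m - W.card) := by
    rw [← pow_add, Nat.add_sub_cancel' hW]
  have hV0 : 0 < Nat.card V := Nat.card_pos
  have hpos : 0 < (Nat.card V ^ r) ^ (m - W.card) := by positivity
  refine Nat.le_of_mul_le_mul_right ?_ hpos
  refine le_trans (le_of_eq ?_) ((h1.trans (Nat.mul_le_mul_left _ h3)).trans (le_of_eq ?_))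
  · rw [h4]
    ring
  · rw [hB]
    ring

/-- T1 in a grid: the number of pairs (family, Selmer element). -/
theorem T1grid (h2 : (2 : k) ≠ 0) (d : TwData k V) : ∃ C : ℕ,
    ∀ (S : Type) (_ : Fintype S) (ps : S → k[X]), (∀ s, (ps s).Monic) →
      (∀ s, Irreducible (ps s)) → ∀ (m : ℕ) (dg : Fin m → ℕ),
      Function.Injective dg → (∀ s j, (ps s).natDegree ≠ dg j) → NearU (Sum.elim ps d.ell) dg →
      Nat.card V ^ Nat.card S ≤ 2 ^ m →
      Nat.card {p : Grid k dg × CodeF V d.h (S ⊕ Fin m) //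
          ∀ a, condF d (Sum.elim ps fun j => (p.1 j).1) p.2 a = 0} ≤
        C * Nat.card (Grid k dg) := by
  classical
  obtain ⟨C, hC⟩ := T1core V 1
  refine ⟨2 * (Nat.card V ^ (1 + d.h) * (C * 2)), ?_⟩
  intro S _ ps hps hpi m dg hinj hne hU hS
  have h1 := double_count (A := Grid k dg) (B := Fin 1 → CodeF V d.h (S ⊕ Fin m))
    (C := S ⊕ Fin m → Fin 1 → V)
    (fun P c => ∀ a i, condF d (Sum.elim ps fun j => (P j).1) (c i) a = 0)
    (fun c l => (∀ i j, Unl d.e (xF c i, l (Sum.inr i)) (xF c j, l (Sum.inr j))) ∧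
        ∀ s j, Unl d.e (yF c s, l (Sum.inl s)) (xF c j, l (Sum.inr j)))
    (fun _ => True)
    ((Nat.card V ^ 1) ^ (Nat.card S + m)) (2 * Nat.card (Grid k dg))
    (fun c => grid_A h2 d hps hpi hinj hne hU c)
  have h0 : Nat.card {p : Grid k dg × CodeF V d.h (S ⊕ Fin m) //
          ∀ a, condF d (Sum.elim ps fun j => (p.1 j).1) p.2 a = 0} ≤
      Nat.card {p : Grid k dg × (Fin 1 → CodeF V d.h (S ⊕ Fin m)) //
        (∀ a i, condF d (Sum.elim ps fun j => (p.1 j).1) (p.2 i) a = 0) ∧ True} := by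
    apply Nat.card_le_card_of_injective (fun p => ⟨(p.1.1, fun _ => p.1.2),
      fun a _ => p.2 a, trivial⟩)
    rintro ⟨⟨P, c⟩, hp⟩ ⟨⟨P', c'⟩, hp'⟩ heq
    have e0 : (P, fun _ : Fin 1 => c) = (P', fun _ : Fin 1 => c') := congrArg Subtype.val heq
    have e1 : P = P' := congrArg Prod.fst e0
    have e2 : (fun _ : Fin 1 => c) = (fun _ : Fin 1 => c') := congrArg Prod.snd e0
    have e3 : c = c' := congrFun e2 0
    subst e1
    subst e3
    rfl
  set N := Nat.card V ^ 1 with hN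
  have h3 : Nat.card {p : (Fin 1 → CodeF V d.h (S ⊕ Fin m)) × (S ⊕ Fin m → Fin 1 → V) //
      ((∀ i j, Unl d.e (xF p.1 i, p.2 (Sum.inr i)) (xF p.1 j, p.2 (Sum.inr j))) ∧
        ∀ s j, Unl d.e (yF p.1 s, p.2 (Sum.inl s)) (xF p.1 j, p.2 (Sum.inr j))) ∧ True} ≤
      Nat.card V ^ (1 + d.h) *
        (C * (N ^ (Nat.card S + m) + (N / 2) ^ m * (N ^ 2) ^ Nat.card S)) := by
    let Z : Type := {z : (S → (Fin 1 → V) × (Fin 1 → V)) × (Fin m → (Fin 1 → V) × (Fin 1 → V)) //
      (∀ i j, Unl d.e (z.2 i) (z.2 j)) ∧ ∀ s j, Unl d.e (z.1 s) (z.2 j)}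
    have hZ : Nat.card Z ≤ C * (N ^ (Nat.card S + m) + (N / 2) ^ m * (N ^ 2) ^ Nat.card S) :=
      hC d.e d.alt d.nd S inferInstance m
    let Y : Type := (V × (Fin d.h → V)) × Z
    have hY : Nat.card Y ≤ Nat.card V ^ (1 + d.h) *
        (C * (N ^ (Nat.card S + m) + (N / 2) ^ m * (N ^ 2) ^ Nat.card S)) := by
      have e : Nat.card Y = Nat.card V * Nat.card (Fin d.h → V) * Nat.card Z := by
        rw [Nat.card_prod, Nat.card_prod]
      rw [e, Nat.card_fun, Nat.card_eq_fintype_card (α := Fin d.h), Fintype.card_fin,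
        ← pow_succ', add_comm d.h 1]
      exact Nat.mul_le_mul_left _ hZ
    refine le_trans ?_ hY
    apply Nat.card_le_card_of_injective (fun p =>
      ((((p.1.1 0).1, (p.1.1 0).2.1),
        ⟨(fun s => (yF p.1.1 s, p.1.2 (Sum.inl s)), fun j => (xF p.1.1 j,
          p.1.2 (Sum.inr j))), p.2.1.1, p.2.1.2⟩) : Y))
    rintro ⟨⟨c, l⟩, hp⟩ ⟨⟨c', l'⟩, hp'⟩ heq
    have e1 : ((c 0).1, (c 0).2.1) = ((c' 0).1, (c' 0).2.1) := congrArg Prod.fst heq
    have e2 : ((fun s => (yF c s, l (Sum.inl s)), fun j => (xF c j, l (Sum.inr j))) :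
        (S → (Fin 1 → V) × (Fin 1 → V)) × (Fin m → (Fin 1 → V) × (Fin 1 → V))) =
        (fun s => (yF c' s, l' (Sum.inl s)), fun j => (xF c' j, l' (Sum.inr j))) :=
      congrArg (fun y : Y => y.2.1) heq
    have e3 : ∀ s, (yF c s, l (Sum.inl s)) = (yF c' s, l' (Sum.inl s)) :=
      fun s => congrFun (congrArg Prod.fst e2) s
    have e4 : ∀ j, (xF c j, l (Sum.inr j)) = (xF c' j, l' (Sum.inr j)) :=
      fun j => congrFun (congrArg Prod.snd e2) j
    have e5 : l = l' := by
      funext a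
      rcases a with s | j
      · exact congrArg Prod.snd (e3 s)
      · exact congrArg Prod.snd (e4 j)
    have e6 : c = c' := by
      funext i
      have hi : i = 0 := Subsingleton.elim _ _
      subst hi
      refine Prod.ext (Prod.mk.inj e1).1 (Prod.ext (Prod.mk.inj e1).2 ?_)
      funext a
      rcases a with s | j
      · exact congrFun (congrArg Prod.fst (e3 s)) 0
      · exact congrFun (congrArg Prod.fst (e4 j)) 0
    subst e5
    subst e6
    rfl
  have hV0 : 0 < Nat.card V := Nat.card_pos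
  have hN0 : 0 < N := by rw [hN]; positivity
  have hpos : 0 < N ^ (Nat.card S + m) := by positivity
  refine Nat.le_of_mul_le_mul_right ?_ hpos
  have h5 : (N / 2) ^ m * (N ^ 2) ^ Nat.card S ≤ N ^ (Nat.card S + m) := by
    calc (N / 2) ^ m * (N ^ 2) ^ Nat.card S = (N / 2) ^ m * (N ^ Nat.card S * N ^ Nat.card S) := by
          rw [← mul_pow, sq]
      _ ≤ (N / 2) ^ m * (N ^ Nat.card S * 2 ^ m) := by
          refine Nat.mul_le_mul_left _ (Nat.mul_le_mul_left _ ?_)
          rw [hN, pow_one]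
          exact hS
      _ = N ^ Nat.card S * (N / 2 * 2) ^ m := by rw [mul_pow]; ring
      _ ≤ N ^ Nat.card S * N ^ m :=
          Nat.mul_le_mul_left _ (Nat.pow_le_pow_left (Nat.div_mul_le_self N 2) _)
      _ = N ^ (Nat.card S + m) := by
          rw [pow_add]
  calc _ ≤ Nat.card {p : Grid k dg × (Fin 1 → CodeF V d.h (S ⊕ Fin m)) //
        (∀ a i, condF d (Sum.elim ps fun j => (p.1 j).1) (p.2 i) a = 0) ∧ True} *
          N ^ (Nat.card S + m) := Nat.mul_le_mul_right _ h0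
    _ ≤ 2 * Nat.card (Grid k dg) *
        (Nat.card V ^ (1 + d.h) *
          (C * (N ^ (Nat.card S + m) + (N / 2) ^ m * (N ^ 2) ^ Nat.card S))) :=
        h1.trans (Nat.mul_le_mul_left _ h3)
    _ ≤ 2 * Nat.card (Grid k dg) *
        (Nat.card V ^ (1 + d.h) * (C * (N ^ (Nat.card S + m) + N ^ (Nat.card S + m)))) :=
        Nat.mul_le_mul_left _ (Nat.mul_le_mul_left _ (Nat.mul_le_mul_left _
          (Nat.add_le_add_left h5 _)))
    _ = _ := by ring

end

end Pool.Agent.SmJ.BJ
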