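import Pool.Agent.Lib.SmJ.OneGrid
import Pool.Agent.Lib.Sm.J11

/-!
Project SMITH for Jacobians, block J, module Main (blocks J + K): almost all monic squarefree
polynomials are typical (`Sm/J11.lean` for a general `V`).
-/

set_option autoImplicit false

open Polynomial Pool.Agent.BSDP.R

namespace Pool.Agent.SmJ.BJ

open Pool.Agent.SmK (DD IsGrid Pts ev xs Nice Dist)
open Pool.Agent.Sm (leg Irr PD)
open Pool.Agent.Sm.BJ (Pat pat Grid NearU sg dgT dgT_strictMono ePts ePts_apply ev_ePts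
  three_le_card natCard_DD window finite_PD)

section
variable {k : Type} [Field k] [Finite k]
variable {V : Type} [AddCommGroup V] [Module (ZMod 2) V]

/-- the set of the bad primes -/
noncomputable def badSet (d : TwData k V) : Finset k[X] :=
  open Classical in Finset.univ.image d.ell

omit [Finite k] in
theorem mem_badSet (d : TwData k V) {P : k[X]} : P ∈ badSet d ↔ ∃ μ, d.ell μ = P := by
  classical
  unfold badSet
  simp

omit [Finite k] in
theorem badSet_irr (d : TwData k V) : ∀ P ∈ badSet d, P.Monic ∧ Irreducible P := by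
  intro P hP
  obtain ⟨μ, rfl⟩ := (mem_badSet d).1 hP
  exact ⟨d.ell_monic μ, d.ell_irr μ⟩

theorem pts_final [Finite V] [Nontrivial V] (h2 : (2 : k) ≠ 0) (d : TwData k V) : ∃ C0 : ℕ, ∀ ε : ℝ, 0 < ε → ∃ R : ℕ,
    ∀ kk C : ℕ, ∃ n0 : ℕ, ∀ n : ℕ, n0 ≤ n →
      ∀ g : k[X] × Finset ℕ,
      IsGrid (badSet d) ⌊Real.log n ^ 3⌋₊ n g →
      (∃ x : Pts k g.2, Nice (2 ^ C) ⌊Real.log n ^ 3⌋₊ n (ev g x)) →
      (Nat.card {x : Pts k g.2 // ¬ Typ d (ev g x) R kk C ⌊Real.log n ^ 3⌋₊} : ℝ) ≤
        ε * Nat.card (Pts k g.2) ∧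
      Nat.card (Σ x : Pts k g.2, Selp d (ev g x)) ≤ C0 * Nat.card (Pts k g.2) := by
  classical
  obtain ⟨C0, hC0⟩ := grid_final h2 d
  refine ⟨C0, fun ε hε => ?_⟩
  obtain ⟨R, hR⟩ := hC0 ε hε
  refine ⟨R, fun kk C => ?_⟩
  obtain ⟨n0, hn0⟩ := hR kk C
  refine ⟨n0, fun n hn => ?_⟩
  rintro ⟨Ds, T⟩ hg ⟨x0, hx0⟩
  set N0 := ⌊Real.log n ^ 3⌋₊ with hN0
  have hdisj := (SmK.ev_eq hg x0).1
  have hpo := SmK.primesOf_ev hg x0
  have hcx := SmK.card_xs x0
  -- the image of the grid
  have hcard : Nat.card (Pts k T) = Nat.card (Grid k (dgT T)) := Nat.card_congr (ePts k T)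
  have hdegx : ∀ t : T, ((x0 t).1).natDegree = t := fun t => (x0 t).2.2.2
  have hcardD : (primesOf (ev (Ds, T) x0)).card = (primesOf Ds).card + T.card := by
    rw [hpo, Finset.card_union_of_disjoint hdisj, hcx]
  have hfewS : ((primesOf Ds).card : ℝ) ≤ 6 * Real.log (Real.log n) := by
    refine le_trans ?_ hx0.fewSmall
    have h3 : primesOf Ds ⊆ {P ∈ primesOf (ev (Ds, T) x0) | P.natDegree < N0} := by
      intro P hP
      rw [Finset.mem_filter, hpo]
      exact ⟨Finset.mem_union_left _ hP, hg.small P hP⟩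
    exact_mod_cast Finset.card_le_card h3
  have hmany : Real.log n / (8 * ((2 ^ C : ℕ) : ℝ)) ≤
      (Finset.univ.filter fun j => 2 ^ C ∣ dgT T j).card := by
    refine hx0.many.trans ?_
    have h3 : {P ∈ primesOf (ev (Ds, T) x0) | N0 ≤ P.natDegree ∧ 2 ^ C ∣ P.natDegree} ⊆
        (Finset.univ.filter fun j => 2 ^ C ∣ dgT T j).image fun j => (x0 (sg T j)).1 := by
      intro P hP
      rw [Finset.mem_filter, hpo, Finset.mem_union] at hP
      rcases hP.1 with h | h
      · have := hg.small P h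
        have := hP.2.1
        omega
      · obtain ⟨t, rfl⟩ := (SmK.mem_xs x0).1 h
        rw [Finset.mem_image]
        refine ⟨(sg T).symm t, ?_, ?_⟩
        · rw [Finset.mem_filter]
          refine ⟨Finset.mem_univ _, ?_⟩
          unfold dgT
          rw [Equiv.apply_symm_apply, ← hdegx t]
          exact hP.2.2
        · rw [Equiv.apply_symm_apply]
    exact_mod_cast (Finset.card_le_card h3).trans Finset.card_image_le
  have hodd : (∃ Q ∈ primesOf Ds, Odd Q.natDegree) ∨ ∃ j, Odd (dgT T j) := by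
    obtain ⟨P, hP, hPo⟩ := hx0.odd
    rw [hpo, Finset.mem_union] at hP
    rcases hP with h | h
    · exact Or.inl ⟨P, h, hPo⟩
    · obtain ⟨t, rfl⟩ := (SmK.mem_xs x0).1 h
      refine Or.inr ⟨(sg T).symm t, ?_⟩
      unfold dgT
      rw [Equiv.apply_symm_apply, ← hdegx t]
      exact hPo
  have hsumT : ∑ j, dgT T j = ∑ t ∈ T, t := by
    unfold dgT
    rw [Equiv.sum_comp (sg T) (fun t : T => (t : ℕ))]
    exact Finset.sum_coe_sort T (fun t => t)
  obtain ⟨hA, hB⟩ := hn0 n hn Ds T.card (dgT T) hg.monic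
    (fun μ => hg.notdvd _ ((mem_badSet d).2 ⟨μ, rfl⟩))
    hg.small (dgT_strictMono T) (fun j => hg.large _ (sg T j).2)
    (by rw [hsumT]; exact hg.deg)
    (by
      have h3 := hx0.few
      rw [hcardD] at h3
      exact h3)
    hfewS hmany hodd
  constructor
  · rw [hcard]
    refine le_trans (le_of_eq ?_) hA
    congr 1
    apply Nat.card_congr
    refine (ePts k T).subtypeEquiv fun x => ?_
    rw [ev_ePts]
  · rw [hcard]
    refine le_trans (le_of_eq ?_) hB
    apply Nat.card_congr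
    refine (ePts k T).sigmaCongr fun x => ?_
    exact Equiv.cast (by rw [ev_ePts])

open Classical in
/-- **Typical `D`.** -/
theorem JK_aux [Finite V] [Nontrivial V] (h2 : (2 : k) ≠ 0) (d : TwData k V) : ∃ C0 : ℕ, ∀ ε : ℝ, 0 < ε → ∃ R : ℕ,
    ∀ kk C : ℕ, ∃ n0 : ℕ, ∀ n : ℕ, n0 ≤ n →
      (Nat.card {D : k[X] // D ∈ DD (badSet d) n ∧ ¬ Typ d D R kk C ⌊Real.log n ^ 3⌋₊} : ℝ) ≤
        ε * (DD (badSet d) n).card ∧
      ∑ D ∈ DD (badSet d) n with Typ d D R kk C ⌊Real.log n ^ 3⌋₊,
        (Nat.card (Selp d D) : ℝ) ≤ C0 * (DD (badSet d) n).card := by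
  obtain ⟨C0, hC0⟩ := pts_final h2 d
  refine ⟨C0 + 1, fun ε hε => ?_⟩
  obtain ⟨R, hR⟩ := hC0 (ε / 2) (by positivity)
  refine ⟨R, fun kk C => ?_⟩
  obtain ⟨n1, hn1⟩ := hR kk C
  have hq3 := three_le_card h2
  obtain ⟨n2, hn2⟩ := SmK.anatomy hq3 (badSet d) (badSet_irr d) (2 ^ C) (by positivity)
    (min (ε / 2) (1 / 2 ^ R)) (by positivity)
  obtain ⟨n3, hn3⟩ := window 0 0 (∑ μ, (d.ell μ).natDegree + 1)
  refine ⟨n1 + n2 + n3, fun n hn => ?_⟩
  have hA := hn1 n (by omega)
  have hB := hn2 n (by omega)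
  have hN := (hn3 n (by omega)).1
  set N0 := ⌊Real.log n ^ 3⌋₊ with hN0
  set BB := badSet d with hBB
  set X := DD BB n with hX
  have hell : ∀ P ∈ BB, P.natDegree < N0 := by
    intro P hP
    obtain ⟨μ, rfl⟩ := (mem_badSet d).1 hP
    have h3 := Finset.single_le_sum (f := fun μ => (d.ell μ).natDegree)
      (fun i _ => Nat.zero_le _) (Finset.mem_univ μ)
    have h4 : (d.ell μ).natDegree + 1 + 1 ≤ N0 := by
      apply Nat.le_floor
      push_cast at hN ⊢
      have h5 : ((d.ell μ).natDegree : ℝ) ≤ ∑ μ, ((d.ell μ).natDegree : ℝ) := by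
        exact_mod_cast h3
      linarith
    omega
  have hfinI : ∀ t, Fintype (Irr k t) := fun t => Fintype.ofFinite _
  have hnice : ∀ D : k[X], Nice (2 ^ C) N0 n D → Dist N0 D := fun D h => h.distinct
  -- the number of all points
  have hall : ∑ g ∈ SmK.Grid BB N0 n, (Nat.card (Pts k g.2) : ℝ) ≤ X.card := by
    have h3 := SmK.grid_sum BB (badSet_irr d) N0 n hell (fun _ => (1 : ℝ))
    have h4 : ∑ g ∈ SmK.Grid BB N0 n, (Nat.card (Pts k g.2) : ℝ) =
        ∑ g ∈ SmK.Grid BB N0 n, ∑ x : Pts k g.2, (1 : ℝ) := by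
      refine Finset.sum_congr rfl fun g _ => ?_
      rw [Finset.sum_const, Finset.card_univ, nsmul_eq_mul, mul_one, Nat.card_eq_fintype_card]
    rw [h4, ← h3, Finset.sum_const, nsmul_eq_mul, mul_one]
    exact_mod_cast Finset.card_filter_le _ _
  -- sums over nice D
  have hsplit : ∀ (F : k[X] → ℝ), (∀ D, 0 ≤ F D) →
      ∑ D ∈ X with Nice (2 ^ C) N0 n D, F D =
      ∑ g ∈ SmK.Grid BB N0 n, ∑ x : Pts k g.2,
        if Nice (2 ^ C) N0 n (ev g x) then F (ev g x) else 0 := by
    intro F _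
    rw [← SmK.grid_sum BB (badSet_irr d) N0 n hell
      (fun D => if Nice (2 ^ C) N0 n D then F D else 0), ← Finset.sum_filter,
      Finset.filter_filter]
    refine Finset.sum_congr ?_ fun _ _ => rfl
    ext D
    simp only [Finset.mem_filter]
    constructor
    · rintro ⟨h, h'⟩
      exact ⟨h, hnice D h', h'⟩
    · rintro ⟨h, _, h'⟩
      exact ⟨h, h'⟩
  have hX0 : (0 : ℝ) ≤ X.card := Nat.cast_nonneg _
  have hBnot : ((X.filter fun D => ¬ Nice (2 ^ C) N0 n D).card : ℝ) ≤
      min (ε / 2) (1 / 2 ^ R) * X.card := by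
    have e1 := natCard_DD BB n (fun D => ¬ Nice (2 ^ C) N0 n D)
    rw [← hX] at e1
    rw [← e1]
    exact hB
  constructor
  · -- (1)
    rw [natCard_DD, ← hX]
    have h3 : ((X.filter fun D => ¬ Typ d D R kk C N0).card : ℝ) ≤
        (X.filter fun D => ¬ Nice (2 ^ C) N0 n D).card +
        ∑ D ∈ X with Nice (2 ^ C) N0 n D, (if Typ d D R kk C N0 then (0 : ℝ) else 1) := by
      have h4 : ∑ D ∈ X with Nice (2 ^ C) N0 n D, (if Typ d D R kk C N0 then (0 : ℝ) else 1) =
          ((X.filter fun D => Nice (2 ^ C) N0 n D ∧ ¬ Typ d D R kk C N0).card : ℝ) := by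
        rw [Finset.card_eq_sum_ones, ← Finset.filter_filter, Finset.sum_filter
          (s := X.filter fun D => Nice (2 ^ C) N0 n D)]
        push_cast
        refine Finset.sum_congr rfl fun D _ => ?_
        by_cases h : Typ d D R kk C N0 <;> simp [h]
      rw [h4]
      have h5 : X.filter (fun D => ¬ Typ d D R kk C N0) ⊆
          (X.filter fun D => ¬ Nice (2 ^ C) N0 n D) ∪
          (X.filter fun D => Nice (2 ^ C) N0 n D ∧ ¬ Typ d D R kk C N0) := by
        intro D hD
        rw [Finset.mem_filter] at hD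
        rw [Finset.mem_union, Finset.mem_filter, Finset.mem_filter]
        by_cases h : Nice (2 ^ C) N0 n D
        · exact Or.inr ⟨hD.1, h, hD.2⟩
        · exact Or.inl ⟨hD.1, h⟩
      have h6 := (Finset.card_le_card h5).trans (Finset.card_union_le _ _)
      exact_mod_cast h6
    refine h3.trans ?_
    rw [hsplit _ (fun D => by split_ifs <;> norm_num)]
    have h7 : ∑ g ∈ SmK.Grid BB N0 n, ∑ x : Pts k g.2,
        (if Nice (2 ^ C) N0 n (ev g x) then (if Typ d (ev g x) R kk C N0 then (0 : ℝ) else 1)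
          else 0) ≤ ∑ g ∈ SmK.Grid BB N0 n, ε / 2 * (Nat.card (Pts k g.2) : ℝ) := by
      apply Finset.sum_le_sum
      intro g hg
      by_cases hx : ∃ x : Pts k g.2, Nice (2 ^ C) N0 n (ev g x)
      · refine le_trans ?_ (hA g (SmK.mem_Grid.1 hg) hx).1
        have h8 : (Nat.card {x : Pts k g.2 // ¬ Typ d (ev g x) R kk C N0} : ℝ) =
            ∑ x : Pts k g.2, (if Typ d (ev g x) R kk C N0 then (0 : ℝ) else 1) := by
          rw [Nat.card_eq_fintype_card, Fintype.card_subtype, Finset.card_eq_sum_ones,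
            Finset.sum_filter]
          push_cast
          refine Finset.sum_congr rfl fun x _ => ?_
          by_cases h : Typ d (ev g x) R kk C N0 <;> simp [h]
        rw [h8]
        apply Finset.sum_le_sum
        intro x _
        split_ifs <;> norm_num
      · push Not at hx
        rw [Finset.sum_eq_zero fun x _ => by rw [if_neg (hx x)]]
        positivity
    rw [← Finset.mul_sum] at h7
    have h8 : ε / 2 * ∑ g ∈ SmK.Grid BB N0 n, (Nat.card (Pts k g.2) : ℝ) ≤ ε / 2 * X.card :=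
      mul_le_mul_of_nonneg_left hall (by positivity)
    have h9 : min (ε / 2) (1 / 2 ^ R) * (X.card : ℝ) ≤ ε / 2 * X.card :=
      mul_le_mul_of_nonneg_right (min_le_left _ _) hX0
    linarith
  · -- (2)
    have h3 : ∑ D ∈ X with Typ d D R kk C N0, (Nat.card (Selp d D) : ℝ) ≤
        ∑ D ∈ X with Nice (2 ^ C) N0 n D, (Nat.card (Selp d D) : ℝ) +
        ∑ D ∈ X with ¬ Nice (2 ^ C) N0 n D, (2 : ℝ) ^ R := by
      simp only [Finset.sum_filter]
      rw [← Finset.sum_add_distrib]
      apply Finset.sum_le_sum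
      intro D _
      by_cases hT : Typ d D R kk C N0
      · rw [if_pos hT]
        by_cases h : Nice (2 ^ C) N0 n D
        · rw [if_pos h, if_neg (not_not.2 h), add_zero]
        · rw [if_neg h, if_pos h, zero_add]
          exact_mod_cast hT.small
      · rw [if_neg hT]
        split_ifs <;> positivity
    refine h3.trans ?_
    rw [hsplit _ (fun D => Nat.cast_nonneg _), Finset.sum_const, nsmul_eq_mul]
    have h7 : ∑ g ∈ SmK.Grid BB N0 n, ∑ x : Pts k g.2,
        (if Nice (2 ^ C) N0 n (ev g x) then (Nat.card (Selp d (ev g x)) : ℝ)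
          else 0) ≤ ∑ g ∈ SmK.Grid BB N0 n, C0 * (Nat.card (Pts k g.2) : ℝ) := by
      apply Finset.sum_le_sum
      intro g hg
      by_cases hx : ∃ x : Pts k g.2, Nice (2 ^ C) N0 n (ev g x)
      · have h8 := (hA g (SmK.mem_Grid.1 hg) hx).2
        have hfinSel : ∀ x : Pts k g.2, Finite (Selp d (ev g x)) := by
          intro x
          have := finite_PD (ev g x)
          infer_instance
        rw [Nat.card_sigma] at h8
        have h9 : (∑ x : Pts k g.2, (Nat.card (Selp d (ev g x)) : ℝ)) ≤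
            C0 * (Nat.card (Pts k g.2) : ℝ) := by
          exact_mod_cast h8
        refine le_trans ?_ h9
        apply Finset.sum_le_sum
        intro x _
        split_ifs
        · exact le_rfl
        · exact Nat.cast_nonneg _
      · push Not at hx
        rw [Finset.sum_eq_zero fun x _ => by rw [if_neg (hx x)]]
        positivity
    rw [← Finset.mul_sum] at h7
    have h8 : (C0 : ℝ) * ∑ g ∈ SmK.Grid BB N0 n, (Nat.card (Pts k g.2) : ℝ) ≤ C0 * X.card :=
      mul_le_mul_of_nonneg_left hall (Nat.cast_nonneg _)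
    have h9 : ((X.filter fun D => ¬ Nice (2 ^ C) N0 n D).card : ℝ) * 2 ^ R ≤ X.card := by
      calc ((X.filter fun D => ¬ Nice (2 ^ C) N0 n D).card : ℝ) * 2 ^ R ≤
          (min (ε / 2) (1 / 2 ^ R) * X.card) * 2 ^ R := by gcongr
        _ ≤ (1 / 2 ^ R * X.card) * 2 ^ R := by
            gcongr
            exact min_le_right _ _
        _ = X.card := by
            field_simp
    push_cast
    linarith

end

end Pool.Agent.SmJ.BJ

namespace Pool.Agent.SmJ

open Pool.Agent.SmK (DD)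

open Classical in
/-- **Theorem JKG.** Almost all monic squarefree `D` prime to the bad primes are typical; the average
of the order of the explicit Selmer group over the typical `D` is bounded by `C0` independently of
`ε, R, kk, C`. -/
theorem JKG {k : Type} [Field k] [Finite k] {V : Type} [AddCommGroup V] [Module (ZMod 2) V]
    [Finite V] [Nontrivial V] (h2 : (2 : k) ≠ 0) (d : TwData k V) :
    ∃ C0 : ℕ, ∀ ε : ℝ, 0 < ε → ∃ R : ℕ, ∀ kk C : ℕ, ∃ n0 : ℕ, ∀ n : ℕ, n0 ≤ n →
      (Nat.card {D : k[X] // D ∈ DD (BJ.badSet d) n ∧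
        ¬ Typ d D R kk C ⌊Real.log n ^ 3⌋₊} : ℝ) ≤ ε * (DD (BJ.badSet d) n).card ∧
      ∑ D ∈ DD (BJ.badSet d) n with Typ d D R kk C ⌊Real.log n ^ 3⌋₊,
        (Nat.card (Selp d D) : ℝ) ≤ C0 * (DD (BJ.badSet d) n).card :=
  BJ.JK_aux h2 d

end Pool.Agent.SmJ
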