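import Pool.Agent.Lib.SmJ.GridBad
import Pool.Agent.Lib.Sm.J10b

/-!
Project SMITH for Jacobians, block J, module OneGrid: one grid `(Ds, degrees)` (`Sm/J10b.lean` for a
general `V`).
-/

set_option autoImplicit false

open Polynomial Pool.Agent.BSDP.R

namespace Pool.Agent.SmJ.BJ

open Pool.Agent.Sm (leg Irr PD)
open Pool.Agent.Sm.BJ (Pat pat Grid NearU card_mono card_proj card_or card_ex card_markov
  exists_equiv sum_deg_primesOf nearU_of numeric window finite_PD)

section
variable {k : Type} [Field k]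
variable {V : Type} [AddCommGroup V] [Module (ZMod 2) V] [Finite V] [Nontrivial V]

omit [Nontrivial V] in
theorem card_Selp_le [Finite k] (d : TwData k V) {D : k[X]} {S : Type}
    [Fintype S] {m : ℕ} {ps : S → k[X]} {P : Fin m → k[X]} (e : PD D ≃ S ⊕ Fin m)
    (he : ∀ a, (e.symm a).1 = Sum.elim ps P a) :
    Nat.card (Selp d D) ≤
      Nat.card {c : CodeF V d.h (S ⊕ Fin m) // ∀ a, condF d (Sum.elim ps P) c a = 0} := by
  classical
  let tr : Code d D → CodeF V d.h (S ⊕ Fin m) := fun c => (c.1, c.2.1, fun a => c.2.2 (e.symm a))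
  have htr : Function.Injective tr := by
    intro c c' h
    have h4 := Prod.mk.inj h
    have h5 := Prod.mk.inj h4.2
    refine Prod.ext h4.1 (Prod.ext h5.1 ?_)
    funext Q
    have h6 := congrFun h5.2 (e Q)
    simpa using h6
  have hcond : ∀ c a, condF d (Sum.elim ps P) (tr c) a = cond d D c (e.symm a) := by
    intro c a
    unfold condF cond
    have e1 : ∀ b, Sum.elim ps P b = (e.symm b).1 := fun b => (he b).symm
    rw [e1 a]
    congr 1
    exact Fintype.sum_equiv e.symm _ _ (fun b => by rw [e1 b])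
  let F : Selp d D → {c : CodeF V d.h (S ⊕ Fin m) // ∀ a, condF d (Sum.elim ps P) c a = 0} :=
    fun c => ⟨tr c.1, fun a => by rw [hcond]; exact c.2 (e.symm a)⟩
  apply Nat.card_le_card_of_injective F
  intro c c' h
  exact Subtype.ext (htr (congrArg Subtype.val h))

theorem grid_final [Finite k] (h2 : (2 : k) ≠ 0) (d : TwData k V) : ∃ C0 : ℕ, ∀ ε : ℝ, 0 < ε → ∃ R : ℕ,
    ∀ kk C : ℕ, ∃ n0 : ℕ, ∀ n : ℕ, n0 ≤ n → ∀ (Ds : k[X]) (m : ℕ) (dg : Fin m → ℕ),
      Ds.Monic → (∀ μ, ¬ d.ell μ ∣ Ds) →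
      (∀ Q ∈ primesOf Ds, Q.natDegree < ⌊Real.log n ^ 3⌋₊) → StrictMono dg →
      (∀ j, ⌊Real.log n ^ 3⌋₊ ≤ dg j) → Ds.natDegree + ∑ j, dg j = n →
      (((primesOf Ds).card + m : ℕ) : ℝ) ≤ 2 * Real.log n →
      ((primesOf Ds).card : ℝ) ≤ 6 * Real.log (Real.log n) →
      Real.log n / (8 * ((2 ^ C : ℕ) : ℝ)) ≤ (Finset.univ.filter fun j => 2 ^ C ∣ dg j).card →
      ((∃ Q ∈ primesOf Ds, Odd Q.natDegree) ∨ ∃ j, Odd (dg j)) →
      (Nat.card {P : Grid k dg // ¬ Typ d (Ds * ∏ j, (P j).1) R kk C ⌊Real.log n ^ 3⌋₊} : ℝ) ≤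
        ε * Nat.card (Grid k dg) ∧
      Nat.card (Σ P : Grid k dg, Selp d (Ds * ∏ j, (P j).1)) ≤ C0 * Nat.card (Grid k dg) := by
  classical
  obtain ⟨C0, hC0⟩ := grid_bad h2 d
  refine ⟨C0, ?_⟩
  intro ε hε
  obtain ⟨R, hR⟩ := hC0 ε hε
  refine ⟨R, ?_⟩
  intro kk C
  obtain ⟨K, hK⟩ := hR kk
  obtain ⟨c, hc, hNU⟩ := nearU_of
  set B := ∑ μ, (d.ell μ).natDegree with hB
  obtain ⟨n1, hn1⟩ := numeric d.h B c
  obtain ⟨n2, hn2⟩ := window K (2 ^ C - 1) (B + 1)
  refine ⟨n1 + n2, ?_⟩
  intro n hn Ds m dg hDsm hell hDsN hdg hdgN hsum hfew hfewS hmany hodd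
  obtain ⟨hA, hwin⟩ := hn2 n (by omega)
  set N0 := ⌊Real.log n ^ 3⌋₊ with hN0
  set S := PD Ds with hS
  have hfinS := finite_PD Ds
  have hDs0 : Ds ≠ 0 := hDsm.ne_zero
  have hcardS : Nat.card S = (primesOf Ds).card := by
    rw [hS, Nat.card_eq_fintype_card]
    exact Fintype.card_coe _
  -- size of N0
  have hq3 : (3 : ℝ) ≤ Nat.card k := by
    have hk := Fintype.ofFinite k
    have h3 : 1 < Nat.card k := Finite.one_lt_card
    have h4 : Nat.card k ≠ 2 := by
      intro h
      apply h2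
      have h5 : ((Nat.card k : ℕ) : k) = 0 := by
        rw [Nat.card_eq_fintype_card]
        exact FiniteField.cast_card_eq_zero k
      rw [h] at h5
      exact_mod_cast h5
    exact_mod_cast (by omega : 3 ≤ Nat.card k)
  have hBN : B < N0 := by
    have h3 : (B : ℝ) + 1 + 1 ≤ Real.log n ^ 3 := by
      push_cast at hA
      linarith
    have h4 : B + 2 ≤ N0 := by
      apply Nat.le_floor
      push_cast
      linarith
    omega
  have hellN : ∀ μ, (d.ell μ).natDegree < N0 := by
    intro μ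
    have := Finset.single_le_sum (f := fun μ => (d.ell μ).natDegree) (fun i _ => Nat.zero_le _)
      (Finset.mem_univ μ)
    exact lt_of_le_of_lt this hBN
  -- the fixed primes
  set f : S ⊕ Fin d.h → k[X] := Sum.elim Subtype.val d.ell with hf
  have hmemS : ∀ s : S, s.1.Monic ∧ Irreducible s.1 ∧ s.1 ∣ Ds := fun s =>
    (mem_primesOf hDs0).1 s.2
  have hfinj : Function.Injective f := by
    intro a b hab
    rcases a with s | μ <;> rcases b with t | ν
    · exact congrArg Sum.inl (Subtype.ext hab)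
    · exfalso
      apply hell ν
      have h3 : s.1 = d.ell ν := hab
      rw [← h3]
      exact (hmemS s).2.2
    · exfalso
      apply hell μ
      have h3 : d.ell μ = t.1 := hab
      rw [h3]
      exact (hmemS t).2.2
    · exact congrArg Sum.inr (d.ell_inj hab)
  have hfm : ∀ x, (f x).Monic := by
    intro x
    rcases x with s | μ
    · exact (hmemS s).1
    · exact d.ell_monic μ
  have hfi : ∀ x, Irreducible (f x) := by
    intro x
    rcases x with s | μ
    · exact (hmemS s).2.1
    · exact d.ell_irr μ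
  have hfN : ∀ x, (f x).natDegree < N0 := by
    intro x
    rcases x with s | μ
    · exact hDsN s.1 s.2
    · exact hellN μ
  have hfsum : ∑ᶠ x, (f x).natDegree + ∑ j, dg j ≤ n + B := by
    rw [finsum_eq_sum_of_fintype, Fintype.sum_sum_type]
    have e1 : ∑ s : S, (f (Sum.inl s)).natDegree = ∑ Q ∈ primesOf Ds, Q.natDegree := by
      rw [← Finset.sum_coe_sort (primesOf Ds) (fun Q => Q.natDegree)]
      exact Fintype.sum_equiv (Equiv.refl _) _ _ (fun _ => rfl)
    have e2 : ∑ μ : Fin d.h, (f (Sum.inr μ)).natDegree = B := rfl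
    have e3 := sum_deg_primesOf hDs0
    rw [e1, e2]
    omega
  have hNear : NearU f dg := by
    apply hNU k inferInstance inferInstance h2 (S ⊕ Fin d.h) inferInstance f hfinj hfm hfi
      m (n + B) N0 dg hdg hdgN hfN hfsum
    have h3 := hn1 n (by omega) (Nat.card k) hq3 m (Nat.card S) (by
      rw [hcardS]
      exact hfew)
    have e1 : Nat.card (S ⊕ Fin d.h) + m = Nat.card S + d.h + m := by
      rw [Nat.card_sum, Nat.card_eq_fintype_card (α := Fin d.h), Fintype.card_fin]
    rw [e1]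
    exact h3
  set W : Finset (Fin m) := Finset.univ.filter fun j => 2 ^ C ∣ dg j with hW
  have hKW : K * (1 + Nat.card S) ≤ W.card := by
    have e1 : ((2 ^ C - 1 : ℕ) : ℝ) + 1 = ((2 ^ C : ℕ) : ℝ) := by
      have : 1 ≤ 2 ^ C := Nat.one_le_two_pow
      rw [Nat.cast_sub this]
      push_cast
      ring
    rw [e1] at hwin
    have h3 : (K : ℝ) * (1 + Nat.card S) ≤ W.card := by
      refine le_trans ?_ (hwin.trans hmany)
      apply mul_le_mul_of_nonneg_left _ (Nat.cast_nonneg _)
      rw [hcardS]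
      linarith
    exact_mod_cast h3
  have hne : ∀ (s : S) j, s.1.natDegree ≠ dg j := by
    intro s j h
    have h3 := hDsN s.1 s.2
    have h4 := hdgN j
    omega
  obtain ⟨hG1, hG2, hG3⟩ := hK S inferInstance Subtype.val (fun s => (hmemS s).1)
    (fun s => (hmemS s).2.1) m dg hdg.injective hne hNear W hKW
  -- the equivalences
  have hPinj : ∀ P : Grid k dg, Function.Injective fun j => (P j).1 := by
    intro P a b hab
    apply hdg.injective
    have ha := (P a).2.2.2
    have hb := (P b).2.2.2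
    rw [← ha, ← hb]
    exact congrArg natDegree hab
  have hPnd : ∀ (P : Grid k dg) j, ¬ (P j).1 ∣ Ds := by
    intro P j h
    have h3 := hDsN (P j).1 ((mem_primesOf hDs0).2 ⟨(P j).2.1, (P j).2.2.1, h⟩)
    rw [(P j).2.2.2] at h3
    have h4 := hdgN j
    omega
  have hequiv : ∀ P : Grid k dg, ∃ e : PD (Ds * ∏ j, (P j).1) ≃ S ⊕ Fin m,
      ∀ a, (e.symm a).1 = Sum.elim Subtype.val (fun j => (P j).1) a := fun P =>
    exists_equiv hDs0 (fun j => (P j).2.1) (fun j => (P j).2.2.1) (hPinj P) (hPnd P)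
  constructor
  · refine le_trans ?_ hG3
    have h3 : Nat.card {P : Grid k dg // ¬ Typ d (Ds * ∏ j, (P j).1) R kk C N0} ≤
        Nat.card {P : Grid k dg // BadT1 (S := S) d Subtype.val (fun j => (P j).1) R ∨
          ∃ r, 1 ≤ r ∧ r ≤ R ∧ BadT2 (S := S) d Subtype.val (fun j => (P j).1) W kk r} := by
      apply card_mono
      intro P hP
      by_contra hcon
      push Not at hcon
      apply hP
      obtain ⟨e, he⟩ := hequiv P
      have hdeg : ∀ j, (P j).1.natDegree = dg j := fun j => (P j).2.2.2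
      have hprod : (∏ j, (P j).1).Monic := monic_prod_of_monic _ _ fun j _ => (P j).2.1
      have hDn : (Ds * ∏ j, (P j).1).natDegree = n := by
        rw [hDsm.natDegree_mul hprod, natDegree_prod_of_monic Finset.univ (fun j => (P j).1) fun j _ => (P j).2.1,
          Finset.sum_congr rfl fun j _ => hdeg j]
        exact hsum
      have hD0 : Ds * ∏ j, (P j).1 ≠ 0 := (hDsm.mul hprod).ne_zero
      apply typ_of_family h2 d hD0 e he (fun j => by rw [hdeg]; exact hdgN j) W
        (fun j hj => by rw [hdeg]; exact (Finset.mem_filter.1 hj).2) hG2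
        (fun a b hab => hdg.injective (by
          have h5 : (P a).1.natDegree = (P b).1.natDegree := hab
          rwa [hdeg, hdeg] at h5))
        (fun s => hDsN s.1 s.2)
      · rw [hDn]
        have h5 : Nat.card (PD (Ds * ∏ j, (P j).1)) = (primesOf Ds).card + m := by
          rw [Nat.card_congr e, Nat.card_sum, hcardS, Nat.card_eq_fintype_card (α := Fin m),
            Fintype.card_fin]
        rw [h5]
        exact hfew
      · rcases hodd with ⟨Q, hQ, hQo⟩ | ⟨j, hj⟩
        · refine ⟨e.symm (Sum.inl ⟨Q, hQ⟩), ?_⟩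
          rw [he]
          exact hQo
        · refine ⟨e.symm (Sum.inr j), ?_⟩
          rw [he]
          change Odd (P j).1.natDegree
          rw [hdeg]
          exact hj
      · exact hcon.1
      · exact hcon.2
    exact_mod_cast h3
  · refine le_trans ?_ hG1
    have hfinSel : ∀ P : Grid k dg, Finite (Selp d (Ds * ∏ j, (P j).1)) := by
      intro P
      have := finite_PD (Ds * ∏ j, (P j).1)
      infer_instance
    have := Fintype.ofFinite (Grid k dg)
    rw [Nat.card_sigma]
    have e1 : {p : Grid k dg × CodeF V d.h (S ⊕ Fin m) //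
          ∀ a, condF d (Sum.elim Subtype.val fun j => (p.1 j).1) p.2 a = 0} ≃
        Σ P : Grid k dg, {c : CodeF V d.h (S ⊕ Fin m) //
          ∀ a, condF d (Sum.elim Subtype.val fun j => (P j).1) c a = 0} :=
      { toFun := fun x => ⟨x.1.1, ⟨x.1.2, x.2⟩⟩
        invFun := fun y => ⟨(y.1, y.2.1), y.2.2⟩
        left_inv := fun x => rfl
        right_inv := fun y => rfl }
    rw [Nat.card_congr e1, Nat.card_sigma]
    apply Finset.sum_le_sum
    intro P _
    obtain ⟨e, he⟩ := hequiv P
    exact card_Selp_le d e he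

end

end Pool.Agent.SmJ.BJ
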